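import Mathlib

-- merged part: Pool.Agent.Work.MP_0c4bbf_an.Series
section
/-!
A lacunary power series and the elementary estimates on it.
-/

set_option autoImplicit false

open Metric Set Filter Topology Complex Finset

namespace Pool.Agent.Work.MP_0c4bbf_an

/-- The coefficients. -/
noncomputable def ee (k : ℕ) : ℝ := (1 / 1000) * (1 / 6) ^ k

lemma ee_pos (k : ℕ) : 0 < ee k := by unfold ee; positivity

lemma ee_succ (k : ℕ) : ee (k + 1) = ee k / 6 := by unfold ee; rw [pow_succ]; ring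

lemma ee_zero : ee 0 = 1 / 1000 := by unfold ee; simp

lemma ee_le (k : ℕ) : ee k ≤ 1 / 1000 := by
  unfold ee
  have : ((1 : ℝ) / 6) ^ k ≤ 1 := pow_le_one₀ (by norm_num) (by norm_num)
  linarith only [this]

lemma norm_ee (k : ℕ) : ‖(ee k : ℂ)‖ = ee k := by
  rw [Complex.norm_real, Real.norm_eq_abs, abs_of_pos (ee_pos k)]

lemma hasSum_ee (n : ℕ) : HasSum (fun i => ee (i + n)) (6 / 5 * ee n) := by
  have h := (hasSum_geometric_of_lt_one (r := (1 : ℝ) / 6) (by norm_num) (by norm_num)).mul_left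
    (ee n)
  have e1 : (fun i => ee (i + n)) = fun i => ee n * (1 / 6) ^ i := by
    ext i; unfold ee; rw [pow_add]; ring
  have e2 : 6 / 5 * ee n = ee n * (1 - 1 / 6)⁻¹ := by norm_num; ring
  rw [e1, e2]
  exact h

lemma summable_ee : Summable ee := by simpa using (hasSum_ee 0).summable

/-- The lacunary series. -/
noncomputable def phi (a : ℂ) : ℂ := ∑' k, (ee k : ℂ) * a ^ (16 ^ k)

/-- Its finite sections. -/
noncomputable def ph (a : ℂ) (n : ℕ) : ℂ := ∑ i ∈ range n, (ee i : ℂ) * a ^ (16 ^ i)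

/-- The reversed finite sections. -/
noncomputable def RR (a : ℂ) : ℕ → ℂ
  | 0 => ee 0
  | k + 1 => a ^ (15 * 16 ^ k) * RR a k + ee (k + 1)

/-- The holomorphic function whose real part on the circle is the squared modulus of `phi`. -/
noncomputable def lam (a : ℂ) : ℂ := ∑' k, (ee k : ℂ) * (2 * RR a k - ee k)

lemma norm_pow_le_one {a : ℂ} (ha : ‖a‖ ≤ 1) (n : ℕ) : ‖a ^ n‖ ≤ 1 := by
  rw [norm_pow]; exact pow_le_one₀ (norm_nonneg _) ha

lemma norm_phi_term_le {a : ℂ} (ha : ‖a‖ ≤ 1) (k : ℕ) : ‖(ee k : ℂ) * a ^ (16 ^ k)‖ ≤ ee k := by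
  rw [norm_mul, norm_ee]
  have := norm_pow_le_one ha (16 ^ k)
  linarith only [this, ee_pos k, mul_nonneg_of_nonpos_of_nonpos (Mathlib.Tactic.Linarith.sub_nonpos_of_le this) (le_of_lt (Mathlib.Tactic.Linarith.sub_neg_of_lt (ee_pos k)))]

lemma summable_phi {a : ℂ} (ha : ‖a‖ ≤ 1) : Summable fun k => (ee k : ℂ) * a ^ (16 ^ k) :=
  Summable.of_norm_bounded summable_ee (norm_phi_term_le ha)

lemma norm_phi_sub_ph {a : ℂ} (ha : ‖a‖ ≤ 1) (n : ℕ) : ‖phi a - ph a n‖ ≤ 6 / 5 * ee n := by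
  have h := (summable_phi ha).sum_add_tsum_nat_add n
  have e : phi a - ph a n = ∑' i, (ee (i + n) : ℂ) * a ^ (16 ^ (i + n)) := by
    unfold phi ph; rw [← h]; ring
  rw [e]
  exact tsum_of_norm_bounded (hasSum_ee n) (fun i => norm_phi_term_le ha (i + n))

lemma norm_phi_le {a : ℂ} (ha : ‖a‖ ≤ 1) : ‖phi a‖ ≤ 1 / 500 := by
  have := norm_phi_sub_ph ha 0
  simp only [ph, range_zero, sum_empty, sub_zero, ee_zero] at this
  linarith only [this]

lemma tendsto_ph {a : ℂ} (ha : ‖a‖ ≤ 1) : Tendsto (ph a) atTop (𝓝 (phi a)) :=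
  (summable_phi ha).hasSum.tendsto_sum_nat

lemma norm_RR_le' {a : ℂ} (ha : ‖a‖ ≤ 1) (k : ℕ) : ‖RR a k‖ ≤ 6 / 5 * (1 / 1000) - ee k / 5 := by
  induction k with
  | zero => simp only [RR]; rw [norm_ee, ee_zero]; norm_num
  | succ k ih =>
    simp only [RR]
    refine (norm_add_le _ _).trans ?_
    rw [norm_mul, norm_ee, ee_succ]
    have := norm_pow_le_one ha (15 * 16 ^ k)
    linarith only [ih, this, norm_nonneg (RR a k), norm_nonneg (a ^ (15 * 16 ^ k)), mul_nonneg_of_nonpos_of_nonpos (Mathlib.Tactic.Linarith.sub_nonpos_of_le this) (Mathlib.Tactic.Linarith.sub_nonpos_of_le (norm_nonneg (RR a k)))]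

lemma norm_RR_le {a : ℂ} (ha : ‖a‖ ≤ 1) (k : ℕ) : ‖RR a k‖ ≤ 1 / 500 := by
  have := norm_RR_le' ha k
  linarith only [this, ee_pos k]

lemma differentiable_RR (k : ℕ) : Differentiable ℂ fun a => RR a k := by
  induction k with
  | zero => simp only [RR]; fun_prop
  | succ k ih => simp only [RR]; fun_prop

lemma norm_lam_term_le {a : ℂ} (ha : ‖a‖ ≤ 1) (k : ℕ) :
    ‖(ee k : ℂ) * (2 * RR a k - ee k)‖ ≤ 1 / 200 * ee k := by
  rw [norm_mul, norm_ee]
  have h1 : ‖2 * RR a k - ee k‖ ≤ 1 / 200 := by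
    refine (norm_sub_le _ _).trans ?_
    rw [norm_mul, norm_ee]
    have := norm_RR_le ha k
    have := ee_le k
    simp only [Complex.norm_ofNat]
    linarith
  linarith only [h1, ee_pos k, mul_nonneg_of_nonpos_of_nonpos (Mathlib.Tactic.Linarith.sub_nonpos_of_le h1) (le_of_lt (Mathlib.Tactic.Linarith.sub_neg_of_lt (ee_pos k)))]

lemma summable_lam {a : ℂ} (ha : ‖a‖ ≤ 1) :
    Summable fun k => (ee k : ℂ) * (2 * RR a k - ee k) :=
  Summable.of_norm_bounded (summable_ee.mul_left _) (norm_lam_term_le ha)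

lemma norm_lam_le {a : ℂ} (ha : ‖a‖ ≤ 1) : ‖lam a‖ ≤ 1 / 1000 := by
  have h := tsum_of_norm_bounded (f := fun k => (ee k : ℂ) * (2 * RR a k - ee k))
    ((hasSum_ee 0).mul_left (1 / 200)) (fun i => norm_lam_term_le ha i)
  simp only [ee_zero] at h
  unfold lam
  linarith only [h]

lemma diffContOnCl_tsum {F : ℕ → ℂ → ℂ} {u : ℕ → ℝ} (hu : Summable u)
    (hF : ∀ k, Differentiable ℂ (F k)) (hb : ∀ k (a : ℂ), ‖a‖ ≤ 1 → ‖F k a‖ ≤ u k) :
    DiffContOnCl ℂ (fun a => ∑' k, F k a) (ball 0 1) := by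
  refine ⟨differentiableOn_tsum_of_summable_norm hu (fun k => (hF k).differentiableOn)
    isOpen_ball (fun k a ha => hb k a (by simpa using (mem_ball_zero_iff.1 ha).le)), ?_⟩
  rw [closure_ball 0 one_ne_zero]
  exact continuousOn_tsum (fun k => (hF k).continuous.continuousOn) hu
    (fun k a ha => hb k a (by simpa using ha))

lemma diffContOnCl_phi : DiffContOnCl ℂ phi (ball 0 1) :=
  diffContOnCl_tsum summable_ee (fun k => by fun_prop) (fun k a ha => norm_phi_term_le ha k)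

lemma diffContOnCl_lam : DiffContOnCl ℂ lam (ball 0 1) :=
  diffContOnCl_tsum (summable_ee.mul_left (1 / 200))
    (fun k => by have := differentiable_RR k; fun_prop) (fun k a ha => norm_lam_term_le ha k)

/-- The defect between reversed sections and conjugated sections. -/
noncomputable def VV (a : ℂ) (k : ℕ) : ℂ :=
  RR a k - a ^ (16 ^ k) * (starRingEnd ℂ) (ph a (k + 1))

lemma mul_conj_pow (a : ℂ) (n : ℕ) :
    a ^ n * (starRingEnd ℂ) (a ^ n) = (((‖a‖ ^ 2) ^ n : ℝ) : ℂ) := by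
  rw [Complex.mul_conj, Complex.normSq_eq_norm_sq, norm_pow, ← pow_mul, ← pow_mul, mul_comm]

lemma VV_zero (a : ℂ) : VV a 0 = ((ee 0 * (1 - (‖a‖ ^ 2) ^ (16 ^ 0)) : ℝ) : ℂ) := by
  have h := mul_conj_pow a (16 ^ 0)
  simp only [VV, RR, ph, zero_add, range_one, sum_singleton, map_mul, Complex.conj_ofReal]
  push_cast at h ⊢
  linear_combination (-(ee 0 : ℂ)) * h

lemma VV_succ (a : ℂ) (k : ℕ) : VV a (k + 1) = a ^ (15 * 16 ^ k) * VV a k +
    ((ee (k + 1) * (1 - (‖a‖ ^ 2) ^ (16 ^ (k + 1))) : ℝ) : ℂ) := by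
  have h := mul_conj_pow a (16 ^ (k + 1))
  have e : a ^ (16 ^ (k + 1)) = a ^ (15 * 16 ^ k) * a ^ (16 ^ k) := by
    rw [← pow_add]; congr 1; rw [pow_succ]; ring
  simp only [VV, RR, ph]
  rw [sum_range_succ _ (k + 1)]
  simp only [map_add, map_mul, Complex.conj_ofReal]
  push_cast at h ⊢
  linear_combination (-(ee (k + 1) : ℂ)) * h -
    ((starRingEnd ℂ) (∑ i ∈ range (k + 1), (ee i : ℂ) * a ^ (16 ^ i))) * e

lemma one_sub_pow_bounds {t : ℝ} (h0 : 0 ≤ t) (h1 : t ≤ 1) (n : ℕ) :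
    0 ≤ 1 - t ^ n ∧ 1 - t ^ n ≤ 1 ∧ 1 - t ^ n ≤ n * (1 - t) := by
  refine ⟨by linarith [pow_le_one₀ (n := n) h0 h1], by linarith [pow_nonneg h0 n], ?_⟩
  have := one_add_mul_le_pow (a := t - 1) (by linarith) n
  rw [show 1 + (t - 1) = t by ring] at this
  linarith

lemma one_sub_pow_le_sqrt {t s : ℝ} (h0 : 0 ≤ t) (h1 : t ≤ 1) (hs0 : 0 ≤ s) (hs : s ^ 2 = 1 - t)
    (k : ℕ) : 1 - t ^ (16 ^ k) ≤ 4 ^ k * s := by
  obtain ⟨a1, a2, a3⟩ := one_sub_pow_bounds h0 h1 (16 ^ k)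
  refine (pow_le_pow_iff_left₀ a1 (by positivity) two_ne_zero).1 ?_
  have e : ((4 : ℝ) ^ k * s) ^ 2 = ((16 ^ k : ℕ) : ℝ) * (1 - t) := by
    rw [mul_pow, hs, ← pow_mul, mul_comm k 2, pow_mul]; push_cast; norm_num
  rw [e]
  linarith only [a3, a1, a2, mul_nonneg_of_nonpos_of_nonpos (Mathlib.Tactic.Linarith.sub_nonpos_of_le a1) (Mathlib.Tactic.Linarith.sub_nonpos_of_le a2)]

lemma sq_norm_le_one {a : ℂ} (ha : ‖a‖ ≤ 1) : ‖a‖ ^ 2 ≤ 1 := pow_le_one₀ (norm_nonneg _) ha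

lemma norm_VV_succ_le {a : ℂ} (ha : ‖a‖ ≤ 1) (k : ℕ) :
    ‖VV a (k + 1)‖ ≤ ‖VV a k‖ + ee (k + 1) * (1 - (‖a‖ ^ 2) ^ (16 ^ (k + 1))) := by
  rw [VV_succ]
  refine (norm_add_le _ _).trans ?_
  have h1 := (one_sub_pow_bounds (sq_nonneg ‖a‖) (sq_norm_le_one ha) (16 ^ (k + 1))).1
  rw [norm_mul, Complex.norm_real, Real.norm_eq_abs,
    abs_of_nonneg (mul_nonneg (ee_pos _).le h1)]
  have := norm_pow_le_one ha (15 * 16 ^ k)
  linarith only [this, norm_nonneg (VV a k), norm_nonneg (a ^ (15 * 16 ^ k)), mul_nonneg_of_nonpos_of_nonpos (Mathlib.Tactic.Linarith.sub_nonpos_of_le this) (Mathlib.Tactic.Linarith.sub_nonpos_of_le (norm_nonneg (VV a k)))]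

lemma norm_VV_zero {a : ℂ} (ha : ‖a‖ ≤ 1) :
    ‖VV a 0‖ = ee 0 * (1 - (‖a‖ ^ 2) ^ (16 ^ 0)) := by
  have h1 := (one_sub_pow_bounds (sq_nonneg ‖a‖) (sq_norm_le_one ha) (16 ^ 0)).1
  rw [VV_zero, Complex.norm_real, Real.norm_eq_abs, abs_of_nonneg (mul_nonneg (ee_pos _).le h1)]

lemma ee_mul_four (k : ℕ) : ee k * 4 ^ k = 1 / 1000 * (2 / 3) ^ k := by
  unfold ee; rw [mul_assoc, ← mul_pow]; norm_num

lemma ee_mul_sixteen (k : ℕ) : ee k * 16 ^ k = 1 / 1000 * (8 / 3) ^ k := by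
  unfold ee; rw [mul_assoc, ← mul_pow]; norm_num

lemma norm_VV_le_sqrt {a : ℂ} (ha : ‖a‖ ≤ 1) {s : ℝ} (hs0 : 0 ≤ s) (hs : s ^ 2 = 1 - ‖a‖ ^ 2)
    (k : ℕ) : ‖VV a k‖ ≤ 3 / 1000 * s := by
  suffices h : ‖VV a k‖ ≤ (3 / 1000 - 2 / 1000 * (2 / 3) ^ k) * s by
    have : (0 : ℝ) ≤ (2 / 3) ^ k * s := by positivity
    linarith only [h, this]
  induction k with
  | zero =>
    rw [norm_VV_zero ha]
    have := one_sub_pow_le_sqrt (sq_nonneg ‖a‖) (sq_norm_le_one ha) hs0 hs 0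
    rw [ee_zero]
    (refine le_of_not_gt fun h_nl => ?_; linarith only [h_nl, hs, hs0, mul_nonneg_of_nonpos_of_nonpos (Mathlib.Tactic.Linarith.sub_nonpos_of_le (sq_nonneg ‖a‖)) (Mathlib.Tactic.Linarith.sub_nonpos_of_le hs0), mul_nonneg_of_nonpos_of_nonpos (Mathlib.Tactic.Linarith.sub_nonpos_of_le hs0) (le_of_lt (Mathlib.Tactic.Linarith.sub_neg_of_lt h_nl))])
  | succ k ih =>
    refine (norm_VV_succ_le ha k).trans ?_
    have h1 := one_sub_pow_le_sqrt (sq_nonneg ‖a‖) (sq_norm_le_one ha) hs0 hs (k + 1)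
    have h2 : ee (k + 1) * (1 - (‖a‖ ^ 2) ^ (16 ^ (k + 1))) ≤ ee (k + 1) * (4 ^ (k + 1) * s) :=
      mul_le_mul_of_nonneg_left h1 (ee_pos _).le
    rw [← mul_assoc, ee_mul_four] at h2
    rw [pow_succ (2 / 3 : ℝ) k] at h2 ⊢
    linarith only [ih, h2]

lemma norm_VV_le_lin {a : ℂ} (ha : ‖a‖ ≤ 1) (k : ℕ) :
    ‖VV a k‖ ≤ 8 / 5000 * (8 / 3) ^ k * (1 - ‖a‖ ^ 2) := by
  have hd : 0 ≤ 1 - ‖a‖ ^ 2 := sub_nonneg.2 (sq_norm_le_one ha)
  induction k with
  | zero =>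
    rw [norm_VV_zero ha, ee_zero]
    simp only [pow_zero, pow_one]
    linarith only [hd]
  | succ k ih =>
    refine (norm_VV_succ_le ha k).trans ?_
    have h1 := (one_sub_pow_bounds (sq_nonneg ‖a‖) (sq_norm_le_one ha) (16 ^ (k + 1))).2.2
    have h2 := mul_le_mul_of_nonneg_left h1 (ee_pos (k + 1)).le
    push_cast at h2
    rw [← mul_assoc, ee_mul_sixteen] at h2
    rw [pow_succ (8 / 3 : ℝ) k] at h2 ⊢
    linarith only [ih, h2]

/-- The defect with the full series. -/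
noncomputable def WW (a : ℂ) (k : ℕ) : ℂ := a ^ (16 ^ k) * (starRingEnd ℂ) (phi a) - RR a k

lemma norm_WW_le {a : ℂ} (ha : ‖a‖ ≤ 1) {s : ℝ} (hs0 : 0 ≤ s) (hs : s ^ 2 = 1 - ‖a‖ ^ 2)
    (k : ℕ) : ‖WW a k‖ ≤ 3 / 1000 * s + ee k / 5 := by
  have e : WW a k = a ^ (16 ^ k) * (starRingEnd ℂ) (phi a - ph a (k + 1)) - VV a k := by
    simp only [WW, VV, map_sub]; ring
  rw [e]
  refine (norm_sub_le _ _).trans ?_
  have h1 := norm_VV_le_sqrt ha hs0 hs k
  have h2 := norm_phi_sub_ph ha (k + 1)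
  have h3 := norm_pow_le_one ha (16 ^ k)
  rw [norm_mul, Complex.norm_conj]
  rw [ee_succ] at h2
  linarith only [h1, h2, h3, norm_nonneg (phi a - ph a (k + 1)), norm_nonneg (a ^ 16 ^ k), mul_nonneg_of_nonpos_of_nonpos (Mathlib.Tactic.Linarith.sub_nonpos_of_le h3) (Mathlib.Tactic.Linarith.sub_nonpos_of_le (norm_nonneg (phi a - ph a (k + (1 : ℕ)))))]

lemma re_lam_sub_sq {a : ℂ} (ha : ‖a‖ ≤ 1) :
    |(lam a).re - ‖phi a‖ ^ 2| ≤ 1 / 100000 * (1 - ‖a‖ ^ 2) := by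
  have hd : 0 ≤ 1 - ‖a‖ ^ 2 := sub_nonneg.2 (sq_norm_le_one ha)
  have key : ∀ n : ℕ, |(∑ k ∈ range n, (ee k : ℂ) * (2 * RR a k - ee k)).re - ‖ph a n‖ ^ 2| ≤
      1 / 100000 * (1 - (4 / 9) ^ n) * (1 - ‖a‖ ^ 2) := by
    intro n
    induction n with
    | zero => simp [ph]
    | succ n ih =>
      have e1 : ph a n = ph a (n + 1) - (ee n : ℂ) * a ^ (16 ^ n) := by
        simp only [ph, sum_range_succ]; ring
      have e2 : ‖ph a n‖ ^ 2 = ‖ph a (n + 1)‖ ^ 2 -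
          2 * ee n * (a ^ (16 ^ n) * (starRingEnd ℂ) (ph a (n + 1))).re +
          ee n ^ 2 * (‖a‖ ^ 2) ^ (16 ^ n) := by
        have e3 : (‖a‖ ^ 2) ^ (16 ^ n) = ‖a ^ (16 ^ n)‖ ^ 2 := by
          rw [norm_pow, ← pow_mul, ← pow_mul, mul_comm]
        rw [e1, e3]
        generalize ph a (n + 1) = u
        generalize a ^ (16 ^ n) = v
        simp only [Complex.sq_norm, Complex.normSq_apply, Complex.sub_re, Complex.sub_im,
          Complex.mul_re, Complex.mul_im, Complex.conj_re, Complex.conj_im, Complex.ofReal_re,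
          Complex.ofReal_im]
        ring
      have e4 : (∑ k ∈ range (n + 1), (ee k : ℂ) * (2 * RR a k - ee k)).re - ‖ph a (n + 1)‖ ^ 2 =
          ((∑ k ∈ range n, (ee k : ℂ) * (2 * RR a k - ee k)).re - ‖ph a n‖ ^ 2) +
          (2 * ee n * (VV a n).re - ee n ^ 2 * (1 - (‖a‖ ^ 2) ^ (16 ^ n))) := by
        rw [sum_range_succ, e2]
        simp only [VV, Complex.add_re, Complex.sub_re, Complex.ofReal_re, Complex.ofReal_im,
          Complex.mul_re, Complex.re_ofNat, Complex.im_ofNat]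
        ring
      rw [e4]
      refine (abs_add_le _ _).trans ?_
      have h1 := (Complex.abs_re_le_norm (VV a n)).trans (norm_VV_le_lin ha n)
      obtain ⟨b1, -, b3⟩ := one_sub_pow_bounds (sq_nonneg ‖a‖) (sq_norm_le_one ha) (16 ^ n)
      push_cast at b3
      have hp := ee_pos n
      have e5 : ee n * (8 / 3) ^ n = 1 / 1000 * (4 / 9) ^ n := by
        unfold ee; rw [mul_assoc, ← mul_pow]; norm_num
      have h2 : |2 * ee n * (VV a n).re| ≤ 16 / 5000000 * (4 / 9) ^ n * (1 - ‖a‖ ^ 2) := by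
        rw [abs_mul, abs_of_pos (by positivity : 0 < 2 * ee n)]
        calc 2 * ee n * |(VV a n).re| ≤ 2 * ee n * (8 / 5000 * (8 / 3) ^ n * (1 - ‖a‖ ^ 2)) := by
              gcongr
          _ = 16 / 5000 * (ee n * (8 / 3) ^ n) * (1 - ‖a‖ ^ 2) := by ring
          _ = _ := by rw [e5]; ring
      have h3 : |ee n ^ 2 * (1 - (‖a‖ ^ 2) ^ (16 ^ n))| ≤
          1 / 1000000 * (4 / 9) ^ n * (1 - ‖a‖ ^ 2) := by
        rw [abs_of_nonneg (by positivity)]
        calc ee n ^ 2 * (1 - (‖a‖ ^ 2) ^ (16 ^ n)) ≤ ee n ^ 2 * (16 ^ n * (1 - ‖a‖ ^ 2)) := by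
              gcongr
          _ = ee n * (ee n * 16 ^ n) * (1 - ‖a‖ ^ 2) := by ring
          _ = 1 / 1000 * (ee n * (8 / 3) ^ n) * (1 - ‖a‖ ^ 2) := by rw [ee_mul_sixteen]; ring
          _ = _ := by rw [e5]; ring
      have h4 := abs_sub (2 * ee n * (VV a n).re) (ee n ^ 2 * (1 - (‖a‖ ^ 2) ^ (16 ^ n)))
      have h5 : (0 : ℝ) ≤ (4 / 9) ^ n * (1 - ‖a‖ ^ 2) := by positivity
      rw [pow_succ (4 / 9 : ℝ) n]
      linarith only [ih, h2, h3, h4, h5]
  have hl : Tendsto (fun n => |(∑ k ∈ range n, (ee k : ℂ) * (2 * RR a k - ee k)).re -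
      ‖ph a n‖ ^ 2|) atTop (𝓝 |(lam a).re - ‖phi a‖ ^ 2|) := by
    refine Tendsto.abs (Tendsto.sub ?_ ((tendsto_ph ha).norm.pow 2))
    exact (Complex.continuous_re.tendsto _).comp (summable_lam ha).hasSum.tendsto_sum_nat
  refine le_of_tendsto' hl (fun n => (key n).trans ?_)
  have h5 : (0 : ℝ) ≤ (4 / 9) ^ n * (1 - ‖a‖ ^ 2) := by positivity
  linarith only [h5]

end Pool.Agent.Work.MP_0c4bbf_an
end

-- merged part: Pool.Agent.Work.MP_0c4bbf_an.Pairs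
section
/-!
Two meromorphic continuations of the conjugated lacunary series, built from a three-term
recurrence.
-/

set_option autoImplicit false

open Metric Set Filter Topology Complex Finset

namespace Pool.Agent.Work.MP_0c4bbf_an

/-- Denominators. -/
noncomputable def Qs (x0 x1 a : ℂ) : ℕ → ℂ
  | 0 => x0
  | 1 => x1
  | k + 2 => Qs x0 x1 a (k + 1) - 6 * a ^ (15 * 16 ^ k) * Qs x0 x1 a k

/-- Numerators. -/
noncomputable def Ps (x0 x1 y0 a : ℂ) : ℕ → ℂ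
  | 0 => y0
  | k + 1 => Ps x0 x1 y0 a k - 6 * a ^ (14 * 16 ^ k) * RR a k * Qs x0 x1 a k

lemma norm_Qs_le {x0 x1 a : ℂ} (h0 : ‖x0‖ ≤ 1) (h1 : ‖x1‖ ≤ 1) (ha : ‖a‖ ≤ 1) (k : ℕ) :
    ‖Qs x0 x1 a k‖ ≤ 3 ^ k := by
  suffices h : ‖Qs x0 x1 a k‖ ≤ 3 ^ k ∧ ‖Qs x0 x1 a (k + 1)‖ ≤ 3 ^ (k + 1) from h.1
  induction k with
  | zero => exact ⟨by simpa [Qs] using h0, by simp only [Qs]; norm_num; linarith⟩
  | succ k ih =>
    refine ⟨ih.2, ?_⟩
    simp only [Qs]
    refine (norm_sub_le _ _).trans ?_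
    rw [norm_mul, norm_mul]
    have h2 := norm_pow_le_one ha (15 * 16 ^ k)
    have h3 : ‖a ^ (15 * 16 ^ k)‖ * ‖Qs x0 x1 a k‖ ≤ 1 * 3 ^ k :=
      mul_le_mul h2 ih.1 (norm_nonneg _) zero_le_one
    have h4 := ih.2
    simp only [Complex.norm_ofNat]
    rw [pow_succ (3 : ℝ) k] at h4
    rw [pow_succ (3 : ℝ) (k + 1), pow_succ (3 : ℝ) k]
    linarith only [h3, h4]

lemma pow15 (a : ℂ) (k : ℕ) : a ^ (15 * 16 ^ k) = a ^ (14 * 16 ^ k) * a ^ (16 ^ k) := by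
  rw [← pow_add]; congr 1; ring

lemma pow16 (a : ℂ) (k : ℕ) :
    a ^ (16 ^ (k + 1)) = a ^ (14 * 16 ^ k) * a ^ (16 ^ k) * a ^ (16 ^ k) := by
  rw [← pow_add, ← pow_add]; congr 1; rw [pow_succ]; ring

lemma ee_succ' (k : ℕ) : (ee k : ℂ) = 6 * ee (k + 1) := by
  rw [ee_succ]; push_cast; ring

lemma key_identity {x0 x1 y0 a : ℂ} (h : (x1 - x0) * ee 0 = a * y0) (k : ℕ) :
    Qs x0 x1 a (k + 1) * RR a k - a ^ (16 ^ k) * Ps x0 x1 y0 a k = ee k * Qs x0 x1 a k := by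
  induction k with
  | zero => simp only [Qs, RR, Ps, pow_zero, pow_one]; linear_combination h
  | succ k ih =>
    simp only [Qs, RR, Ps]
    rw [pow15, pow16]
    rw [ee_succ' k] at ih
    linear_combination (a ^ (14 * 16 ^ k) * a ^ (16 ^ k)) * ih

lemma det_identity (a : ℂ) (k : ℕ) :
    Qs 1 1 a (k + 1) * Ps 0 a (ee 0) a k - Qs 0 a a (k + 1) * Ps 1 1 0 a k = ee 0 := by
  induction k with
  | zero => simp [Qs, Ps]
  | succ k ih =>
    have hA := key_identity (x0 := 1) (x1 := 1) (y0 := 0) (a := a) (by ring) k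
    have hB := key_identity (x0 := 0) (x1 := a) (y0 := ee 0) (a := a) (by ring) k
    simp only [Qs, Ps]
    rw [pow15]
    linear_combination ih - 6 * a ^ (14 * 16 ^ k) * Qs 0 a a k * hA +
      6 * a ^ (14 * 16 ^ k) * Qs 1 1 a k * hB

lemma differentiable_Qs {x0 x1 : ℂ → ℂ} (h0 : Differentiable ℂ x0) (h1 : Differentiable ℂ x1)
    (k : ℕ) : Differentiable ℂ fun a => Qs (x0 a) (x1 a) a k := by
  suffices h : (Differentiable ℂ fun a => Qs (x0 a) (x1 a) a k) ∧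
      Differentiable ℂ fun a => Qs (x0 a) (x1 a) a (k + 1) from h.1
  induction k with
  | zero => exact ⟨h0, h1⟩
  | succ k ih =>
    refine ⟨ih.2, ?_⟩
    simp only [Qs]
    have := ih.1
    have := ih.2
    fun_prop

lemma differentiable_Ps {x0 x1 y0 : ℂ → ℂ} (h0 : Differentiable ℂ x0) (h1 : Differentiable ℂ x1)
    (h2 : Differentiable ℂ y0) (k : ℕ) :
    Differentiable ℂ fun a => Ps (x0 a) (x1 a) (y0 a) a k := by
  induction k with
  | zero => exact h2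
  | succ k ih =>
    simp only [Ps]
    have := differentiable_Qs h0 h1 k
    have := differentiable_RR k
    fun_prop

lemma nat_mul_pow_le {t : ℝ} (h0 : 0 ≤ t) (h1 : t ≤ 1) (n : ℕ) :
    n * t ^ n * (1 - t) ≤ 1 - t ^ n := by
  induction n with
  | zero => simp
  | succ n ih =>
    push_cast
    rw [pow_succ]
    have h2 : 0 ≤ t ^ n := pow_nonneg h0 n
    have h3 : 0 ≤ (n + 1) * t ^ n * (1 - t) * (1 - t) := by
      have : 0 ≤ 1 - t := by linarith
      positivity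
    linarith only [ih, h3]

lemma pow_mul_sqrt_le {r s : ℝ} (h0 : 0 ≤ r) (h1 : r ≤ 1) (hs0 : 0 ≤ s) (hs : s ^ 2 = 1 - r ^ 2)
    (k : ℕ) : r ^ (14 * 16 ^ k) * s ≤ (1 / 4) ^ k := by
  have h2 : r ^ (14 * 16 ^ k) ≤ r ^ (16 ^ k) :=
    pow_le_pow_of_le_one h0 h1 (by linarith only [Nat.one_le_pow k 16 (by norm_num)])
  refine le_trans (mul_le_mul_of_nonneg_right h2 hs0) ?_
  refine (pow_le_pow_iff_left₀ (by positivity) (by positivity) two_ne_zero).1 ?_
  have h3 := nat_mul_pow_le (sq_nonneg r) (pow_le_one₀ h0 h1) (16 ^ k)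
  have h4 : 0 ≤ (r ^ 2) ^ (16 ^ k) := by positivity
  have e1 : (r ^ 16 ^ k * s) ^ 2 = (r ^ 2) ^ (16 ^ k) * (1 - r ^ 2) := by
    rw [mul_pow, hs, ← pow_mul, ← pow_mul, mul_comm 2]
  have e2 : (((1 : ℝ) / 4) ^ k) ^ 2 = 1 / 16 ^ k := by
    rw [← pow_mul, mul_comm k 2, pow_mul, ← one_div_pow]; norm_num
  rw [e1, e2, le_div_iff₀ (by positivity)]
  push_cast at h3
  linarith only [h4, h3]

lemma exists_limit {f : ℕ → ℂ → ℂ} (hf : ∀ k, Differentiable ℂ (f k))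
    (hb : ∀ k (a : ℂ), ‖a‖ ≤ 1 → ‖f (k + 1) a - f k a‖ ≤ 6 * 3 ^ k * ‖a‖ ^ (14 * 16 ^ k)) :
    ∃ F : ℂ → ℂ, DifferentiableOn ℂ F (ball 0 1) ∧
      ∀ a : ℂ, ‖a‖ < 1 → Tendsto (fun k => f k a) atTop (𝓝 (F a)) := by
  have hsum : ∀ r : ℝ, 0 ≤ r → r < 1 → Summable fun k : ℕ => 6 * 3 ^ k * r ^ (14 * 16 ^ k) := by
    intro r h0 h1
    have hd : 0 < 1 - r ^ 2 := by linarith only [h1, h0, mul_nonneg_of_nonpos_of_nonpos (Mathlib.Tactic.Linarith.sub_nonpos_of_le h0) (le_of_lt (Mathlib.Tactic.Linarith.sub_neg_of_lt h1))]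
    have hs0 : 0 < √(1 - r ^ 2) := Real.sqrt_pos.2 hd
    refine Summable.of_nonneg_of_le (fun k => by positivity) (fun k => ?_)
      ((summable_geometric_of_lt_one (r := (3 : ℝ) / 4) (by norm_num) (by norm_num)).mul_left
        (6 / √(1 - r ^ 2)))
    have h2 := pow_mul_sqrt_le h0 h1.le hs0.le (Real.sq_sqrt hd.le) k
    rw [div_mul_eq_mul_div, le_div_iff₀ hs0]
    have e : ((3 : ℝ) / 4) ^ k = 3 ^ k * (1 / 4) ^ k := by rw [← mul_pow]; norm_num
    rw [e]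
    have : (0 : ℝ) < 3 ^ k := by positivity
    linarith only [h2, this, mul_nonneg_of_nonpos_of_nonpos (Mathlib.Tactic.Linarith.sub_nonpos_of_le h2) (le_of_lt (Mathlib.Tactic.Linarith.sub_neg_of_lt this))]
  refine ⟨fun a => f 0 a + ∑' k, (f (k + 1) a - f k a), ?_, ?_⟩
  · intro a ha
    have ha' : ‖a‖ < 1 := by simpa using ha
    obtain ⟨r, hr1, hr2⟩ := exists_between ha'
    have hr0 : 0 ≤ r := (norm_nonneg a).trans hr1.le
    have hd : DifferentiableOn ℂ (fun a => ∑' k, (f (k + 1) a - f k a)) (ball 0 r) := by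
      refine differentiableOn_tsum_of_summable_norm (hsum r hr0 hr2)
        (fun k => ((hf (k + 1)).sub (hf k)).differentiableOn) isOpen_ball (fun k w hw => ?_)
      have hw' : ‖w‖ < r := by simpa using hw
      refine (hb k w (by linarith)).trans ?_
      gcongr
    exact ((hf 0 a).add (hd.differentiableAt
      (isOpen_ball.mem_nhds (by simpa using hr1)))).differentiableWithinAt
  · intro a ha
    have hs : Summable fun k => f (k + 1) a - f k a :=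
      Summable.of_norm_bounded (hsum ‖a‖ (norm_nonneg a) ha) (fun k => hb k a ha.le)
    have h1 := hs.hasSum.tendsto_sum_nat.const_add (f 0 a)
    refine h1.congr (fun n => ?_)
    rw [Finset.sum_range_sub (fun k => f k a)]
    ring

theorem exists_pair {x0 x1 y0 : ℂ → ℂ} (h0 : Differentiable ℂ x0) (h1 : Differentiable ℂ x1)
    (h2 : Differentiable ℂ y0) (b0 : ∀ a : ℂ, ‖a‖ ≤ 1 → ‖x0 a‖ ≤ 1)
    (b1 : ∀ a : ℂ, ‖a‖ ≤ 1 → ‖x1 a‖ ≤ 1) (hrel : ∀ a, (x1 a - x0 a) * ee 0 = a * y0 a) :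
    ∃ Q P : ℂ → ℂ, DifferentiableOn ℂ Q (ball 0 1) ∧ DifferentiableOn ℂ P (ball 0 1) ∧
      (∀ a : ℂ, ‖a‖ < 1 → Tendsto (fun k => Qs (x0 a) (x1 a) a (k + 1)) atTop (𝓝 (Q a))) ∧
      (∀ a : ℂ, ‖a‖ < 1 → Tendsto (fun k => Ps (x0 a) (x1 a) (y0 a) a k) atTop (𝓝 (P a))) ∧
      ∀ η > 0, ∃ r < 1, ∀ a w : ℂ, r < ‖a‖ → ‖a‖ < 1 →
        ‖w - (starRingEnd ℂ) (phi a)‖ ^ 2 ≤ 1 - ‖a‖ ^ 2 → ‖Q a * w - P a‖ ≤ η := by
  have hQinc : ∀ k (a : ℂ), ‖a‖ ≤ 1 → ‖Qs (x0 a) (x1 a) a (k + 1 + 1) -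
      Qs (x0 a) (x1 a) a (k + 1)‖ ≤ 6 * 3 ^ k * ‖a‖ ^ (14 * 16 ^ k) := by
    intro k a ha
    have hq := norm_Qs_le (b0 a ha) (b1 a ha) ha k
    simp only [Qs]
    rw [sub_sub_cancel_left, norm_neg, pow15, norm_mul, norm_mul, norm_mul, norm_pow]
    have h3 := norm_pow_le_one ha (16 ^ k)
    simp only [Complex.norm_ofNat]
    calc 6 * (‖a‖ ^ (14 * 16 ^ k) * ‖a ^ 16 ^ k‖) * ‖Qs (x0 a) (x1 a) a k‖
        ≤ 6 * (‖a‖ ^ (14 * 16 ^ k) * 1) * 3 ^ k :=
          mul_le_mul (mul_le_mul_of_nonneg_left (mul_le_mul_of_nonneg_left h3 (by positivity))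
            (by norm_num)) hq (norm_nonneg _) (by positivity)
      _ = _ := by ring
  obtain ⟨Q, hQd, hQ⟩ := exists_limit (f := fun k a => Qs (x0 a) (x1 a) a (k + 1))
    (fun k => differentiable_Qs h0 h1 (k + 1)) hQinc
  obtain ⟨P, hPd, hP⟩ := exists_limit (f := fun k a => Ps (x0 a) (x1 a) (y0 a) a k)
    (fun k => differentiable_Ps h0 h1 h2 k) (by
      intro k a ha
      have hq := norm_Qs_le (b0 a ha) (b1 a ha) ha k
      simp only [Ps]
      rw [sub_sub_cancel_left, norm_neg, norm_mul, norm_mul, norm_mul, norm_pow]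
      have h3 : ‖RR a k‖ ≤ 1 := (norm_RR_le ha k).trans (by norm_num)
      simp only [Complex.norm_ofNat]
      calc 6 * ‖a‖ ^ (14 * 16 ^ k) * ‖RR a k‖ * ‖Qs (x0 a) (x1 a) a k‖
          ≤ 6 * ‖a‖ ^ (14 * 16 ^ k) * 1 * 3 ^ k :=
            mul_le_mul (mul_le_mul_of_nonneg_left h3 (by positivity)) hq (norm_nonneg _)
              (by positivity)
        _ = _ := by ring)
  refine ⟨Q, P, hQd, hPd, hQ, hP, fun η hη => ?_⟩
  obtain ⟨k, hk⟩ := exists_pow_lt_of_lt_one (show 0 < η / 120 by positivity)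
    (show (3 : ℝ) / 4 < 1 by norm_num)
  set σ : ℝ := η / (24 * 3 ^ k) with hσ
  have hσ0 : 0 < σ := by positivity
  refine ⟨max (1 - σ ^ 2 / 2) (1 - 1 / (2 * 16 ^ k)), max_lt (by linarith only [sq_pos_of_pos hσ0])
    (by have : (0 : ℝ) < 1 / (2 * 16 ^ k) := by positivity
        linarith only [this]), fun a w hr ha hw => ?_⟩
  have hr1 : 1 - σ ^ 2 / 2 < ‖a‖ := lt_of_le_of_lt (le_max_left _ _) hr
  have hr2 : 1 - 1 / (2 * 16 ^ k) < ‖a‖ := lt_of_le_of_lt (le_max_right _ _) hr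
  have hd : 0 ≤ 1 - ‖a‖ ^ 2 := sub_nonneg.2 (sq_norm_le_one ha.le)
  set s := √(1 - ‖a‖ ^ 2) with hsdef
  have hs0 : 0 ≤ s := Real.sqrt_nonneg _
  have hs : s ^ 2 = 1 - ‖a‖ ^ 2 := Real.sq_sqrt hd
  have hsσ : s ≤ σ := by
    refine (pow_le_pow_iff_left₀ hs0 hσ0.le two_ne_zero).1 ?_
    rw [hs]; linarith only [hr1, sq_nonneg (1 - ‖a‖)]
  have hws : ‖w - (starRingEnd ℂ) (phi a)‖ ≤ s :=
    (pow_le_pow_iff_left₀ (norm_nonneg _) hs0 two_ne_zero).1 (by rw [hs]; exact hw)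
  have hq := norm_Qs_le (b0 a ha.le) (b1 a ha.le) ha.le
  have hps := pow_mul_sqrt_le (norm_nonneg a) ha.le hs0 hs
  have e34 : ∀ j : ℕ, ((3 : ℝ) / 4) ^ j = 3 ^ j * (1 / 4) ^ j := fun j => by
    rw [← mul_pow]; norm_num
  have e12 : ∀ j : ℕ, ee j * 3 ^ j ≤ 1 / 1000 * (3 / 4) ^ j := fun j => by
    unfold ee
    rw [mul_assoc, ← mul_pow]
    gcongr
    norm_num
  set u : ℕ → ℂ := fun j => Qs (x0 a) (x1 a) a (j + 1) * w - Ps (x0 a) (x1 a) (y0 a) a j with hu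
  have hlim : Tendsto u atTop (𝓝 (Q a * w - P a)) := ((hQ a ha).mul_const w).sub (hP a ha)
  have hX : ∀ j, ‖a ^ (16 ^ j) * w - RR a j‖ ≤ 2 * s + ee j / 5 := by
    intro j
    have e : a ^ (16 ^ j) * w - RR a j =
        a ^ (16 ^ j) * (w - (starRingEnd ℂ) (phi a)) + WW a j := by
      simp only [WW]; ring
    rw [e]
    refine (norm_add_le _ _).trans ?_
    have h3 := norm_WW_le ha.le hs0 hs j
    have h4 := norm_pow_le_one ha.le (16 ^ j)
    rw [norm_mul]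
    linarith only [h3, hws, hs0,
      mul_le_mul_of_nonneg_right h4 (norm_nonneg (w - (starRingEnd ℂ) (phi a)))]
  have hinc : ∀ j, dist (u j) (u (j + 1)) ≤ 13 * (3 / 4) ^ j := by
    intro j
    have e : u j - u (j + 1) =
        6 * a ^ (14 * 16 ^ j) * Qs (x0 a) (x1 a) a j * (a ^ (16 ^ j) * w - RR a j) := by
      simp only [hu, Qs, Ps]
      rw [pow15]
      ring
    rw [dist_eq_norm, e, norm_mul, norm_mul, norm_mul, norm_pow]
    simp only [Complex.norm_ofNat]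
    have h3 : ‖a‖ ^ (14 * 16 ^ j) ≤ 1 := pow_le_one₀ (norm_nonneg _) ha.le
    have h5 := ee_pos j
    calc 6 * ‖a‖ ^ (14 * 16 ^ j) * ‖Qs (x0 a) (x1 a) a j‖ * ‖a ^ 16 ^ j * w - RR a j‖
        ≤ 6 * ‖a‖ ^ (14 * 16 ^ j) * 3 ^ j * (2 * s + ee j / 5) := by
          gcongr
          · exact hq j
          · exact hX j
      _ = 12 * 3 ^ j * (‖a‖ ^ (14 * 16 ^ j) * s) +
          6 / 5 * ‖a‖ ^ (14 * 16 ^ j) * (ee j * 3 ^ j) := by ring
      _ ≤ 12 * 3 ^ j * (1 / 4) ^ j + 6 / 5 * 1 * (1 / 1000 * (3 / 4) ^ j) := by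
          refine add_le_add (mul_le_mul_of_nonneg_left (hps j) (by positivity)) ?_
          exact mul_le_mul (by linarith only [h3]) (e12 j) (by positivity) (by norm_num)
      _ ≤ 13 * (3 / 4) ^ j := by
          rw [mul_assoc 12, ← e34]
          have : (0 : ℝ) < (3 / 4) ^ j := by positivity
          linarith only [this]
  have hdist := dist_le_of_le_geometric_of_tendsto (3 / 4) 13 (by norm_num) hinc hlim k
  have hpow : 1 / 2 ≤ ‖a‖ ^ (16 ^ k) := by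
    have h3 := (one_sub_pow_bounds (norm_nonneg a) ha.le (16 ^ k)).2.2
    push_cast at h3
    have h4 : (16 : ℝ) ^ k * (1 - ‖a‖) ≤ 16 ^ k * (1 / (2 * 16 ^ k)) := by
      gcongr; linarith only [hr2]
    have h5 : (16 : ℝ) ^ k * (1 / (2 * 16 ^ k)) = 1 / 2 := by field_simp
    linarith only [h3, h4, h5]
  have huk : ‖u k‖ ≤ η / 2 + (3 / 4) ^ k := by
    have e : a ^ (16 ^ k) * u k = Qs (x0 a) (x1 a) a (k + 1) * (a ^ (16 ^ k) * w - RR a k) +
        ee k * Qs (x0 a) (x1 a) a k := by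
      simp only [hu]
      linear_combination key_identity (hrel a) k
    have h3 : ‖a ^ (16 ^ k) * u k‖ ≤ 3 ^ (k + 1) * (2 * s + ee k / 5) + ee k * 3 ^ k := by
      rw [e]
      refine (norm_add_le _ _).trans ?_
      rw [norm_mul, norm_mul, norm_ee]
      have h5 := ee_pos k
      gcongr
      · exact hq (k + 1)
      · exact hX k
      · exact hq k
    rw [norm_mul, norm_pow, pow_succ] at h3
    have h4 := e12 k
    have h6 : 3 ^ k * s ≤ η / 24 := by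
      calc (3 : ℝ) ^ k * s ≤ 3 ^ k * σ := by gcongr
        _ = η / 24 := by rw [hσ]; field_simp
    have h7 : (0 : ℝ) < (3 / 4) ^ k := by positivity
    linarith only [h3, h4, h6, h7, mul_le_mul_of_nonneg_right hpow (norm_nonneg (u k))]
  have h8 : ‖Q a * w - P a‖ ≤ ‖u k‖ + dist (u k) (Q a * w - P a) := by
    rw [dist_eq_norm]
    have := norm_sub_le (u k) (u k - (Q a * w - P a))
    simpa using this
  have h9 : 13 * (3 / 4 : ℝ) ^ k / (1 - 3 / 4) = 52 * (3 / 4) ^ k := by ring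
  rw [h9] at hdist
  linarith only [hη, hk, hdist, huk, h8]

end Pool.Agent.Work.MP_0c4bbf_an
end

-- merged part: Pool.Agent.Work.MP_0c4bbf_an.FixedPoint
section
/-!
Fixed points of holomorphic self-maps of the unit disc, depending linearly on a point of the
closed unit ball of complex 2-space.
-/

set_option autoImplicit false

open Metric Set Filter Topology Complex

namespace Pool.Agent.Work.MP_0c4bbf_an

/-- Minimum modulus principle, used to produce zeros. -/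
lemma exists_zero_of_lt {h : ℂ → ℂ} {c x : ℂ} {r m : ℝ}
    (hd : DiffContOnCl ℂ h (ball c r)) (hx : x ∈ ball c r) (hlt : ‖h x‖ < m)
    (hm : ∀ y ∈ sphere c r, m ≤ ‖h y‖) : ∃ y ∈ ball c r, h y = 0 := by
  by_contra hne
  push Not at hne
  have hr : 0 < r := lt_of_le_of_lt dist_nonneg (mem_ball.1 hx)
  have hm0 : 0 < m := lt_of_le_of_lt (norm_nonneg _) hlt
  have hne' : ∀ y ∈ closure (ball c r), h y ≠ 0 := by
    intro y hy
    rw [closure_ball c hr.ne'] at hy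
    rcases (mem_closedBall.1 hy).lt_or_eq with h1 | h1
    · exact hne y (mem_ball.2 h1)
    · intro h0
      have := hm y (mem_sphere.2 h1)
      rw [h0, norm_zero] at this
      linarith
  have hinv : DiffContOnCl ℂ (fun y => (h y)⁻¹) (ball c r) := hd.inv hne'
  have hb := Complex.norm_le_of_forall_mem_frontier_norm_le (C := m⁻¹) isBounded_ball hinv
    (fun y hy => by
      rw [frontier_ball c hr.ne'] at hy
      rw [norm_inv]
      exact inv_anti₀ hm0 (hm y hy)) (subset_closure hx)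
  rw [norm_inv] at hb
  have hpos : 0 < ‖h x‖ := norm_pos_iff.2 (hne x hx)
  have := (inv_le_inv₀ hpos hm0).1 hb
  linarith

/-- A holomorphic map of the closed disc into a smaller disc has a fixed point. -/
lemma exists_fixed_of_norm_le {F : ℂ → ℂ} {r : ℝ} (hr : r < 1)
    (hd : DiffContOnCl ℂ F (ball 0 1)) (hF : ∀ a : ℂ, ‖a‖ ≤ 1 → ‖F a‖ ≤ r) :
    ∃ a : ℂ, ‖a‖ < 1 ∧ F a = a := by
  have hr0 : 0 ≤ r := le_trans (norm_nonneg _) (hF 0 (by simp))
  obtain ⟨n, hn⟩ := exists_nat_one_div_lt (K := ℝ) (sub_pos.2 hr)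
  set N : ℝ := (n : ℝ) + 1 with hN
  have hNpos : 0 < N := by positivity
  have key : ∀ j : ℕ, j ≤ n + 1 → ∃ a : ℂ, ‖a‖ < 1 ∧ ((j : ℝ) / N : ℝ) * F a = a := by
    intro j
    induction j with
    | zero => intro _; exact ⟨0, by simp, by simp⟩
    | succ j ih =>
      intro hj
      obtain ⟨a, ha, hfa⟩ := ih (by omega)
      have ht : (((j + 1 : ℕ) : ℝ) / N) ≤ 1 := by
        rw [div_le_one hNpos, hN]
        exact_mod_cast hj
      have ht0 : 0 ≤ (((j + 1 : ℕ) : ℝ) / N) := by positivity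
      have hdd : DiffContOnCl ℂ (fun y => y - ((((j + 1 : ℕ) : ℝ) / N : ℝ) : ℂ) * F y) (ball 0 1) :=
        (differentiable_id.diffContOnCl).sub (hd.const_smul ((((j + 1 : ℕ) : ℝ) / N : ℝ) : ℂ))
      obtain ⟨y, hy, hy0⟩ := exists_zero_of_lt (x := a) (m := 1 - r) hdd (by simpa using ha)
        (by
          have e : a - ((((j + 1 : ℕ) : ℝ) / N : ℝ) : ℂ) * F a = -(((1 / N : ℝ)) : ℂ) * F a := by
            have : ((((j + 1 : ℕ) : ℝ) / N : ℝ) : ℂ) = (((j : ℝ) / N : ℝ) : ℂ) + ((1 / N : ℝ) : ℂ) := by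
              rw [← Complex.ofReal_add]; congr 1; push_cast; ring
            rw [this]
            linear_combination -hfa
          rw [e, norm_mul, norm_neg, Complex.norm_real, Real.norm_eq_abs,
            abs_of_pos (by positivity)]
          have h1 := hF a ha.le
          have h2 : 1 / N * ‖F a‖ ≤ 1 / N * 1 := by
            gcongr; linarith only [hr, h1]
          linarith only [hn, h2])
        (by
          intro y hy
          have hy1 : ‖y‖ = 1 := by simpa using hy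
          have h1 := hF y hy1.le
          have h2 : ‖((((j + 1 : ℕ) : ℝ) / N : ℝ) : ℂ) * F y‖ ≤ r := by
            rw [norm_mul, Complex.norm_real, Real.norm_eq_abs, abs_of_nonneg ht0]
            linarith only [h1, ht, norm_nonneg (F y), mul_nonneg_of_nonpos_of_nonpos (Mathlib.Tactic.Linarith.sub_nonpos_of_le ht) (Mathlib.Tactic.Linarith.sub_nonpos_of_le (norm_nonneg (F y)))]
          have h3 := norm_sub_norm_le y (((((j + 1 : ℕ) : ℝ) / N : ℝ) : ℂ) * F y)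
          linarith only [hy1, h2, h3])
      exact ⟨y, by simpa using hy, (sub_eq_zero.1 hy0).symm⟩
  obtain ⟨a, ha, hfa⟩ := key (n + 1) le_rfl
  refine ⟨a, ha, ?_⟩
  have : (((n + 1 : ℕ) : ℝ) / N) = 1 := by
    rw [hN]; push_cast; field_simp
  rw [this] at hfa
  simpa using hfa

lemma normSq_mobius (a w : ℂ) :
    ‖1 - (starRingEnd ℂ) a * w‖ ^ 2 - ‖w - a‖ ^ 2 = (1 - ‖a‖ ^ 2) * (1 - ‖w‖ ^ 2) := by
  simp only [Complex.sq_norm, Complex.normSq_apply, Complex.sub_re, Complex.sub_im,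
    Complex.mul_re, Complex.mul_im, Complex.one_re, Complex.one_im, Complex.conj_re,
    Complex.conj_im]
  ring

/-- Rigidity (Schwarz lemma at an interior fixed point). -/
lemma dslope_ne_one {F : ℂ → ℂ} {a : ℂ} (hd : DiffContOnCl ℂ F (ball 0 1))
    (hF : ∀ x : ℂ, ‖x‖ ≤ 1 → ‖F x‖ ≤ 1) (ha : ‖a‖ < 1) (hfa : F a = a)
    (hne : ∃ x : ℂ, ‖x‖ < 1 ∧ F x ≠ x) {x₀ : ℂ} (hx₀ : ‖x₀‖ < 1) : dslope F a x₀ ≠ 1 := by
  intro h1
  have hab : a ∈ ball (0 : ℂ) 1 := by simpa using ha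
  have hnb : ball (0 : ℂ) 1 ∈ 𝓝 a := isOpen_ball.mem_nhds hab
  have hcl : closure (ball (0 : ℂ) 1) = closedBall 0 1 := closure_ball 0 one_ne_zero
  have hden : ∀ w : ℂ, ‖w‖ ≤ 1 → 1 - (starRingEnd ℂ) a * w ≠ 0 := by
    intro w hw h0
    have h2 : (starRingEnd ℂ) a * w = 1 := by linear_combination -h0
    have h3 : ‖(starRingEnd ℂ) a * w‖ = 1 := by rw [h2, norm_one]
    rw [norm_mul, Complex.norm_conj] at h3
    linarith only [ha, h3, hw, norm_nonneg a, norm_nonneg w, mul_nonneg_of_nonpos_of_nonpos (Mathlib.Tactic.Linarith.sub_nonpos_of_le hw) (Mathlib.Tactic.Linarith.sub_nonpos_of_le (norm_nonneg a))]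
  have hds : DiffContOnCl ℂ (dslope F a) (ball 0 1) := by
    refine ⟨(Complex.differentiableOn_dslope hnb).2 hd.differentiableOn, ?_⟩
    refine (continuousOn_dslope (mem_of_superset hnb subset_closure)).2 ⟨hd.continuousOn, ?_⟩
    exact hd.differentiableOn.differentiableAt hnb
  set n : ℂ → ℂ := fun x => dslope F a x * (1 - (starRingEnd ℂ) a * x) *
    (1 - (starRingEnd ℂ) a * F x)⁻¹ with hn
  have hnd : DiffContOnCl ℂ n (ball 0 1) := by
    have h2 : DiffContOnCl ℂ (fun x => 1 - (starRingEnd ℂ) a * x) (ball (0 : ℂ) 1) :=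
      Differentiable.diffContOnCl (by fun_prop)
    have h3 : DiffContOnCl ℂ (fun x => 1 - (starRingEnd ℂ) a * F x) (ball (0 : ℂ) 1) :=
      diffContOnCl_const.sub (hd.const_smul ((starRingEnd ℂ) a))
    have h4 : DiffContOnCl ℂ (fun x => (1 - (starRingEnd ℂ) a * F x)⁻¹) (ball (0 : ℂ) 1) :=
      h3.inv (fun x hx => hden _ (hF x (by rw [hcl] at hx; simpa using hx)))
    exact (hds.smul h2).smul h4
  have hnle : ∀ x ∈ closure (ball (0 : ℂ) 1), ‖n x‖ ≤ 1 := by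
    intro x hx
    refine Complex.norm_le_of_forall_mem_frontier_norm_le isBounded_ball hnd ?_ hx
    intro y hy
    rw [frontier_ball 0 one_ne_zero] at hy
    have hy1 : ‖y‖ = 1 := by simpa using hy
    have hya : y ≠ a := by rintro rfl; linarith
    have e1 : ‖1 - (starRingEnd ℂ) a * y‖ = ‖y - a‖ := by
      have := normSq_mobius a y
      rw [hy1] at this
      have h5 : ‖1 - (starRingEnd ℂ) a * y‖ ^ 2 = ‖y - a‖ ^ 2 := by linarith only [this]
      exact (pow_left_inj₀ (norm_nonneg _) (norm_nonneg _) two_ne_zero).1 h5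
    have e2 : ‖F y - a‖ ≤ ‖1 - (starRingEnd ℂ) a * F y‖ := by
      have h5 := normSq_mobius a (F y)
      have h6 := hF y hy1.le
      have h7 : 0 ≤ (1 - ‖a‖ ^ 2) * (1 - ‖F y‖ ^ 2) := by
        apply mul_nonneg
        · linarith only [ha, norm_nonneg a, mul_nonneg_of_nonpos_of_nonpos (le_of_lt (Mathlib.Tactic.Linarith.sub_neg_of_lt ha)) (Mathlib.Tactic.Linarith.sub_nonpos_of_le (norm_nonneg a))]
        · linarith only [h6, norm_nonneg (F y), mul_nonneg_of_nonpos_of_nonpos (Mathlib.Tactic.Linarith.sub_nonpos_of_le h6) (Mathlib.Tactic.Linarith.sub_nonpos_of_le (norm_nonneg (F y)))]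
      exact (pow_le_pow_iff_left₀ (norm_nonneg _) (norm_nonneg _) two_ne_zero).1 (by linarith only [h5, h7])
    have hpos : 0 < ‖1 - (starRingEnd ℂ) a * F y‖ := norm_pos_iff.2 (hden _ (hF y hy1.le))
    have hpos2 : 0 < ‖y - a‖ := norm_pos_iff.2 (sub_ne_zero.2 hya)
    simp only [hn]
    rw [dslope_of_ne _ hya, slope_def_field, hfa, norm_mul, norm_mul, norm_div, norm_inv, e1,
      div_mul_cancel₀ _ hpos2.ne', ← div_eq_mul_inv, div_le_one hpos]
    exact e2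
  have hfx₀ : F x₀ = x₀ := by
    have := sub_smul_dslope F a x₀
    rw [h1, hfa] at this
    simp only [smul_eq_mul, mul_one] at this
    linear_combination -this
  have hnx₀ : n x₀ = 1 := by
    simp only [hn]
    rw [h1, hfx₀, one_mul, mul_inv_cancel₀ (hden _ hx₀.le)]
  have hconst := Complex.eq_const_of_exists_max (b := 1) hnd.differentiableOn
    (v := x₀) (by simpa using hx₀) (by
      intro x hx
      simp only [mem_ofPred_eq, Function.comp_apply, hnx₀, norm_one]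
      exact hnle x (subset_closure hx))
  obtain ⟨x, hx, hxne⟩ := hne
  have h2 := hconst (show x ∈ ball (0 : ℂ) 1 by simpa using hx)
  rw [Function.const_apply, hnx₀] at h2
  simp only [hn] at h2
  have h3 := sub_smul_dslope F a x
  rw [hfa] at h3
  simp only [smul_eq_mul] at h3
  have h4 := hden _ (hF x hx.le)
  have h5 : dslope F a x * (1 - (starRingEnd ℂ) a * x) = 1 - (starRingEnd ℂ) a * F x := by
    field_simp at h2
    linear_combination h2
  have h6 : (F x - x) * (1 - (starRingEnd ℂ) a * a) = 0 := by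
    linear_combination (x - a) * h5 - (1 - (starRingEnd ℂ) a * x) * h3
  rcases mul_eq_zero.1 h6 with h7 | h7
  · exact hxne (sub_eq_zero.1 h7)
  · exact hden a ha.le h7

/-- Complex 2-space with the Euclidean norm. -/
abbrev E2 := EuclideanSpace ℂ (Fin 2)

lemma normSq_E2 (z : E2) : ‖z‖ ^ 2 = ‖z 0‖ ^ 2 + ‖z 1‖ ^ 2 := by
  rw [EuclideanSpace.norm_sq_eq, Fin.sum_univ_two]

/-- The pairing of a point of 2-space with a pair of functions. -/
noncomputable def pairing (ψ₁ ψ₂ : ℂ → ℂ) (z : E2) (a : ℂ) : ℂ := z 0 * ψ₁ a + z 1 * ψ₂ a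

section Proj

variable {ψ₁ ψ₂ : ℂ → ℂ}

lemma pairing_diffContOnCl (h₁ : DiffContOnCl ℂ ψ₁ (ball 0 1)) (h₂ : DiffContOnCl ℂ ψ₂ (ball 0 1))
    (z : E2) : DiffContOnCl ℂ (pairing ψ₁ ψ₂ z) (ball 0 1) :=
  (h₁.const_smul (z 0)).add (h₂.const_smul (z 1))

lemma pairing_sub (z w : E2) (a : ℂ) :
    pairing ψ₁ ψ₂ (z - w) a = pairing ψ₁ ψ₂ z a - pairing ψ₁ ψ₂ w a := by
  simp only [pairing, PiLp.sub_apply]; ring

lemma norm_pairing_le (h₁ : DiffContOnCl ℂ ψ₁ (ball 0 1)) (h₂ : DiffContOnCl ℂ ψ₂ (ball 0 1))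
    (hs : ∀ a : ℂ, ‖a‖ = 1 → ‖ψ₁ a‖ ^ 2 + ‖ψ₂ a‖ ^ 2 ≤ 1) (z : E2) {a : ℂ} (ha : ‖a‖ ≤ 1) :
    ‖pairing ψ₁ ψ₂ z a‖ ≤ ‖z‖ := by
  refine Complex.norm_le_of_forall_mem_frontier_norm_le isBounded_ball
    (pairing_diffContOnCl h₁ h₂ z) ?_ (by rw [closure_ball 0 one_ne_zero]; simpa using ha)
  intro y hy
  rw [frontier_ball 0 one_ne_zero] at hy
  have hy1 : ‖y‖ = 1 := by simpa using hy
  have h3 := hs y hy1
  have h4 : ‖pairing ψ₁ ψ₂ z y‖ ≤ ‖z 0‖ * ‖ψ₁ y‖ + ‖z 1‖ * ‖ψ₂ y‖ := by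
    unfold pairing
    refine (norm_add_le _ _).trans ?_
    rw [norm_mul, norm_mul]
  refine h4.trans ?_
  refine (pow_le_pow_iff_left₀ (by positivity) (norm_nonneg _) two_ne_zero).1 ?_
  rw [normSq_E2]
  linarith only [h3, sq_nonneg (‖z 0‖ * ‖ψ₂ y‖ - ‖z 1‖ * ‖ψ₁ y‖), sq_nonneg ‖z 0‖, sq_nonneg ‖z 1‖,
    mul_nonneg (add_nonneg (sq_nonneg ‖z 0‖) (sq_nonneg ‖z 1‖)) (sub_nonneg.2 h3), sq_nonneg (‖z.ofLp (0 : Fin (2 : ℕ))‖ * ‖ψ₂ y‖ - ‖z.ofLp (1 : Fin (2 : ℕ))‖ * ‖ψ₁ y‖), sq_nonneg ‖z.ofLp (0 : Fin (2 : ℕ))‖, sq_nonneg ‖z.ofLp (1 : Fin (2 : ℕ))‖]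

/-- The points of the closed ball whose pairing map has a fixed point in the open disc. -/
def goodSet (ψ₁ ψ₂ : ℂ → ℂ) : Set E2 :=
  {z | ‖z‖ ≤ 1 ∧ ∃ a : ℂ, ‖a‖ < 1 ∧ pairing ψ₁ ψ₂ z a = a}

open Classical in
/-- The fixed point. -/
noncomputable def proj (ψ₁ ψ₂ : ℂ → ℂ) (z : E2) : ℂ :=
  if h : ∃ a : ℂ, ‖a‖ < 1 ∧ pairing ψ₁ ψ₂ z a = a then h.choose else 0

lemma proj_spec {z : E2} (hz : z ∈ goodSet ψ₁ ψ₂) :
    ‖proj ψ₁ ψ₂ z‖ < 1 ∧ pairing ψ₁ ψ₂ z (proj ψ₁ ψ₂ z) = proj ψ₁ ψ₂ z := by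
  unfold proj
  rw [dif_pos hz.2]
  exact hz.2.choose_spec

/-- Standing hypotheses on the pair of functions. -/
structure Admissible (ψ₁ ψ₂ : ℂ → ℂ) : Prop where
  d₁ : DiffContOnCl ℂ ψ₁ (ball 0 1)
  d₂ : DiffContOnCl ℂ ψ₂ (ball 0 1)
  bd : ∀ a : ℂ, ‖a‖ = 1 → ‖ψ₁ a‖ ^ 2 + ‖ψ₂ a‖ ^ 2 ≤ 1
  ne : ∀ z : E2, ‖z‖ ≤ 1 → ∃ x : ℂ, ‖x‖ < 1 ∧ pairing ψ₁ ψ₂ z x ≠ x

namespace Admissible

variable (H : Admissible ψ₁ ψ₂)
include H

lemma norm_le (z : E2) {a : ℂ} (ha : ‖a‖ ≤ 1) : ‖pairing ψ₁ ψ₂ z a‖ ≤ ‖z‖ :=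
  norm_pairing_le H.d₁ H.d₂ H.bd z ha

lemma dcl (z : E2) : DiffContOnCl ℂ (pairing ψ₁ ψ₂ z) (ball 0 1) :=
  pairing_diffContOnCl H.d₁ H.d₂ z

lemma mem_good {z : E2} (hz : ‖z‖ < 1) : z ∈ goodSet ψ₁ ψ₂ :=
  ⟨hz.le, exists_fixed_of_norm_le hz (H.dcl z) (fun _ ha => H.norm_le z ha)⟩

lemma dslope_ne {z : E2} (hz : ‖z‖ ≤ 1) {a x : ℂ} (ha : ‖a‖ < 1)
    (hfa : pairing ψ₁ ψ₂ z a = a) (hx : ‖x‖ < 1) : dslope (pairing ψ₁ ψ₂ z) a x ≠ 1 :=
  dslope_ne_one (H.dcl z) (fun _ hy => (H.norm_le z hy).trans hz) ha hfa (H.ne z hz) hx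

lemma fixed_unique {z : E2} (hz : ‖z‖ ≤ 1) {a x : ℂ} (ha : ‖a‖ < 1)
    (hfa : pairing ψ₁ ψ₂ z a = a) (hx : ‖x‖ < 1) (hfx : pairing ψ₁ ψ₂ z x = x) : x = a := by
  by_contra hne
  apply H.dslope_ne hz ha hfa hx
  rw [dslope_of_ne _ hne, slope_def_field, hfa, hfx, div_self (sub_ne_zero.2 hne)]

lemma proj_eq {z : E2} (hz : ‖z‖ ≤ 1) {a : ℂ} (ha : ‖a‖ < 1)
    (hfa : pairing ψ₁ ψ₂ z a = a) : proj ψ₁ ψ₂ z = a := by
  have h := proj_spec (ψ₁ := ψ₁) (ψ₂ := ψ₂) (z := z) ⟨hz, a, ha, hfa⟩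
  exact H.fixed_unique hz ha hfa h.1 h.2

lemma local_proj {z₀ : E2} (hz₀ : z₀ ∈ goodSet ψ₁ ψ₂) {ε : ℝ} (hε : 0 < ε) :
    ∃ δ > 0, ∀ z : E2, ‖z‖ ≤ 1 → ‖z - z₀‖ < δ →
      z ∈ goodSet ψ₁ ψ₂ ∧ ‖proj ψ₁ ψ₂ z - proj ψ₁ ψ₂ z₀‖ < ε := by
  obtain ⟨ha₀, hfa₀⟩ := proj_spec hz₀
  set a₀ := proj ψ₁ ψ₂ z₀
  set ρ : ℝ := min ε ((1 - ‖a₀‖) / 2) with hρ
  have hρ0 : 0 < ρ := lt_min hε (by linarith only [ha₀])
  have hρ1 : ρ ≤ (1 - ‖a₀‖) / 2 := min_le_right _ _
  have hρ2 : ρ ≤ ε := min_le_left _ _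
  have hin : ∀ y ∈ closedBall a₀ ρ, ‖y‖ < 1 := by
    intro y hy
    have h1 : ‖y - a₀‖ ≤ ρ := by simpa [dist_eq_norm] using hy
    have h2 : ‖y‖ ≤ ‖y - a₀‖ + ‖a₀‖ := by simpa using norm_add_le (y - a₀) a₀
    linarith only [hρ0, hρ1, h1, h2]
  have hsub : closedBall a₀ ρ ⊆ ball (0 : ℂ) 1 := fun y hy => by simpa using hin y hy
  have hcont : ContinuousOn (fun y => ‖y - pairing ψ₁ ψ₂ z₀ y‖) (sphere a₀ ρ) :=
    (continuousOn_id.sub ((H.dcl z₀).differentiableOn.continuousOn.mono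
      (sphere_subset_closedBall.trans hsub))).norm
  obtain ⟨y₀, hy₀, hmin⟩ := (isCompact_sphere a₀ ρ).exists_isMinOn
    (NormedSpace.sphere_nonempty.2 hρ0.le) hcont
  set m := ‖y₀ - pairing ψ₁ ψ₂ z₀ y₀‖ with hm
  have hm0 : 0 < m := by
    rw [hm, norm_pos_iff, sub_ne_zero]
    intro h
    have h1 := H.fixed_unique hz₀.1 ha₀ hfa₀ (hin y₀ (sphere_subset_closedBall hy₀)) h.symm
    rw [h1] at hy₀
    simp at hy₀
    linarith only [hρ0, hy₀]
  refine ⟨m / 2, by positivity, fun z hz hzz => ?_⟩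
  have hdd : DiffContOnCl ℂ (fun y => y - pairing ψ₁ ψ₂ z y) (ball a₀ ρ) := by
    refine DifferentiableOn.diffContOnCl ?_
    rw [closure_ball a₀ hρ0.ne']
    exact differentiableOn_id.sub ((H.dcl z).differentiableOn.mono hsub)
  obtain ⟨y, hy, hy0⟩ := exists_zero_of_lt (x := a₀) (m := m / 2) hdd (mem_ball_self hρ0)
    (by
      have e : a₀ - pairing ψ₁ ψ₂ z a₀ = - pairing ψ₁ ψ₂ (z - z₀) a₀ := by
        rw [pairing_sub, hfa₀]; ring
      rw [e, norm_neg]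
      exact lt_of_le_of_lt (H.norm_le _ ha₀.le) hzz)
    (by
      intro y hy
      have e : y - pairing ψ₁ ψ₂ z y = (y - pairing ψ₁ ψ₂ z₀ y) - pairing ψ₁ ψ₂ (z - z₀) y := by
        rw [pairing_sub]; ring
      have h1 : m ≤ ‖y - pairing ψ₁ ψ₂ z₀ y‖ := hmin hy
      have h2 := H.norm_le (z - z₀) (hin y (sphere_subset_closedBall hy)).le
      have h3 := norm_sub_norm_le (y - pairing ψ₁ ψ₂ z₀ y) (pairing ψ₁ ψ₂ (z - z₀) y)
      rw [e]
      linarith only [hzz, h1, h2, h3])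
  have hy1 := hin y (ball_subset_closedBall hy)
  have hfy : pairing ψ₁ ψ₂ z y = y := (sub_eq_zero.1 hy0).symm
  refine ⟨⟨hz, y, hy1, hfy⟩, ?_⟩
  rw [H.proj_eq hz hy1 hfy]
  have : ‖y - a₀‖ < ρ := by simpa [dist_eq_norm] using hy
  linarith only [hρ2, this]

lemma continuousWithinAt_proj {z₀ : E2} (hz₀ : z₀ ∈ goodSet ψ₁ ψ₂) :
    ContinuousWithinAt (proj ψ₁ ψ₂) (closedBall 0 1) z₀ := by
  rw [Metric.continuousWithinAt_iff]
  intro ε hε
  obtain ⟨δ, hδ, h⟩ := H.local_proj hz₀ hε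
  refine ⟨δ, hδ, fun z hz hzz => ?_⟩
  rw [dist_eq_norm] at hzz ⊢
  exact (h z (by simpa using hz) hzz).2

lemma eventually_good {z₀ : E2} (hz₀ : z₀ ∈ goodSet ψ₁ ψ₂) :
    ∀ᶠ z in 𝓝[closedBall 0 1] z₀, z ∈ goodSet ψ₁ ψ₂ := by
  obtain ⟨δ, hδ, h⟩ := H.local_proj hz₀ one_pos
  filter_upwards [self_mem_nhdsWithin, mem_nhdsWithin_of_mem_nhds (ball_mem_nhds z₀ hδ)]
    with z hz hzz
  exact (h z (by simpa using hz) (by simpa [dist_eq_norm] using hzz)).1

lemma isCompact_bad : IsCompact (closedBall (0 : E2) 1 \ goodSet ψ₁ ψ₂) := by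
  refine (isCompact_closedBall (0 : E2) 1).of_isClosed_subset ?_ sdiff_subset
  rw [← isOpen_compl_iff, isOpen_iff_mem_nhds]
  intro z₀ hz₀
  by_cases h : z₀ ∈ closedBall (0 : E2) 1
  · have hg : z₀ ∈ goodSet ψ₁ ψ₂ := by
      by_contra hg
      exact hz₀ ⟨h, hg⟩
    have := H.eventually_good hg
    rw [eventually_nhdsWithin_iff] at this
    filter_upwards [this] with z hz hz'
    exact hz'.2 (hz hz'.1)
  · filter_upwards [isClosed_closedBall.isOpen_compl.mem_nhds h] with z hz hz'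
    exact hz hz'.1

lemma differentiableAt_proj {z₀ : E2} (hz₀ : ‖z₀‖ < 1) :
    DifferentiableAt ℂ (proj ψ₁ ψ₂) z₀ := by
  have hg₀ := H.mem_good hz₀
  obtain ⟨ha₀, hfa₀⟩ := proj_spec hg₀
  have hnb : ball (0 : E2) 1 ∈ 𝓝 z₀ := isOpen_ball.mem_nhds (by simpa using hz₀)
  have hc : ContinuousAt (proj ψ₁ ψ₂) z₀ :=
    (H.continuousWithinAt_proj hg₀).continuousAt (mem_of_superset hnb ball_subset_closedBall)
  set a₀ := proj ψ₁ ψ₂ z₀ with ha₀def
  have hnb' : ball (0 : ℂ) 1 ∈ 𝓝 a₀ := isOpen_ball.mem_nhds (by simpa using ha₀)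
  set D : ℂ → ℂ := fun x => (1 - dslope (pairing ψ₁ ψ₂ z₀) a₀ x)⁻¹ with hD
  have hDc : ContinuousAt D a₀ := by
    refine (continuousAt_const.sub ?_).inv₀ ?_
    · exact continuousAt_dslope_same.2 ((H.dcl z₀).differentiableOn.differentiableAt hnb')
    · exact sub_ne_zero.2 (H.dslope_ne hz₀.le ha₀ hfa₀ ha₀).symm
  have h1c : ContinuousAt (fun z => ψ₁ (proj ψ₁ ψ₂ z) * D (proj ψ₁ ψ₂ z)) z₀ :=
    (ContinuousAt.comp (f := proj ψ₁ ψ₂) (x := z₀)
      (H.d₁.differentiableOn.differentiableAt hnb').continuousAt hc).mul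
      (ContinuousAt.comp (f := proj ψ₁ ψ₂) (x := z₀) hDc hc)
  have h2c : ContinuousAt (fun z => ψ₂ (proj ψ₁ ψ₂ z) * D (proj ψ₁ ψ₂ z)) z₀ :=
    (ContinuousAt.comp (f := proj ψ₁ ψ₂) (x := z₀)
      (H.d₂.differentiableOn.differentiableAt hnb').continuousAt hc).mul
      (ContinuousAt.comp (f := proj ψ₁ ψ₂) (x := z₀) hDc hc)
  have key : ∀ (u : E2 → ℂ) (i : Fin 2), ContinuousAt u z₀ →
      DifferentiableAt ℂ (fun z : E2 => (z - z₀) i * u z) z₀ := by
    intro u i hu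
    have hl : HasFDerivAt (fun z : E2 => (z - z₀) i * u z)
        (u z₀ • (EuclideanSpace.proj i : E2 →L[ℂ] ℂ)) z₀ := by
      rw [hasFDerivAt_iff_isLittleO]
      have hO : (fun z : E2 => (z - z₀) i) =O[𝓝 z₀] fun z => z - z₀ :=
        Asymptotics.IsBigO.of_bound 1 (Eventually.of_forall fun z => by
          simpa using PiLp.norm_apply_le (z - z₀) i)
      have ho : (fun z : E2 => u z - u z₀) =o[𝓝 z₀] fun _ => (1 : ℝ) := by
        rw [Asymptotics.isLittleO_one_iff]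
        simpa using hu.tendsto.sub_const (u z₀)
      have := hO.norm_right.mul_isLittleO ho
      refine Asymptotics.IsLittleO.of_norm_right ?_
      refine (this.congr_left ?_).congr_right (by simp)
      intro z
      simp
      ring
    exact hl.differentiableAt
  have hsum := ((key _ 0 h1c).add (key _ 1 h2c)).const_add a₀
  refine hsum.congr_of_eventuallyEq ?_
  filter_upwards [hnb] with z hz
  have hz' : ‖z‖ < 1 := by simpa using hz
  obtain ⟨ha, hfa⟩ := proj_spec (H.mem_good hz')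
  set a := proj ψ₁ ψ₂ z
  have h3 := sub_smul_dslope (pairing ψ₁ ψ₂ z₀) a₀ a
  rw [hfa₀, smul_eq_mul] at h3
  have h4 := pairing_sub (ψ₁ := ψ₁) (ψ₂ := ψ₂) z z₀ a
  rw [hfa] at h4
  have h5 : 1 - dslope (pairing ψ₁ ψ₂ z₀) a₀ a ≠ 0 :=
    sub_ne_zero.2 (H.dslope_ne hz₀.le ha₀ hfa₀ ha).symm
  have h6 : (a - a₀) * (1 - dslope (pairing ψ₁ ψ₂ z₀) a₀ a) =
      (z - z₀) 0 * ψ₁ a + (z - z₀) 1 * ψ₂ a := by
    change _ = pairing ψ₁ ψ₂ (z - z₀) a
    rw [h4]
    linear_combination -h3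
  change a = a₀ + ((z - z₀) 0 * (ψ₁ a * (1 - dslope (pairing ψ₁ ψ₂ z₀) a₀ a)⁻¹) +
    (z - z₀) 1 * (ψ₂ a * (1 - dslope (pairing ψ₁ ψ₂ z₀) a₀ a)⁻¹))
  field_simp
  linear_combination h6

lemma near_bad {z₀ : E2} (hz₀ : ‖z₀‖ ≤ 1) (hb : z₀ ∉ goodSet ψ₁ ψ₂) {r : ℝ} (hr : r < 1) :
    ∃ δ > 0, ∀ z ∈ goodSet ψ₁ ψ₂, ‖z - z₀‖ < δ → r < ‖proj ψ₁ ψ₂ z‖ := by
  rcases lt_or_ge r 0 with hr0 | hr0
  · exact ⟨1, one_pos, fun z _ _ => lt_of_lt_of_le hr0 (norm_nonneg _)⟩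
  have hsub : closedBall (0 : ℂ) r ⊆ ball 0 1 := closedBall_subset_ball hr
  have hcont : ContinuousOn (fun y => ‖y - pairing ψ₁ ψ₂ z₀ y‖) (closedBall 0 r) :=
    (continuousOn_id.sub ((H.dcl z₀).differentiableOn.continuousOn.mono hsub)).norm
  obtain ⟨y₀, hy₀, hmin⟩ := (isCompact_closedBall (0 : ℂ) r).exists_isMinOn
    (nonempty_closedBall.2 hr0) hcont
  refine ⟨‖y₀ - pairing ψ₁ ψ₂ z₀ y₀‖, ?_, fun z hz hzz => ?_⟩
  · rw [gt_iff_lt, norm_pos_iff, sub_ne_zero]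
    intro h
    exact hb ⟨hz₀, y₀, by simpa using hsub hy₀, h.symm⟩
  · by_contra hle
    push Not at hle
    obtain ⟨ha, hfa⟩ := proj_spec hz
    have h1 : ‖y₀ - pairing ψ₁ ψ₂ z₀ y₀‖ ≤ ‖proj ψ₁ ψ₂ z - pairing ψ₁ ψ₂ z₀ (proj ψ₁ ψ₂ z)‖ :=
      hmin (show proj ψ₁ ψ₂ z ∈ closedBall (0 : ℂ) r by simpa using hle)
    have h2 := H.norm_le (z - z₀) ha.le
    rw [pairing_sub, hfa] at h2
    linarith only [hzz, h1, h2]

lemma small_near_boundary {f : E2 → ℂ} (hf : ContinuousOn f (closedBall 0 1))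
    (hK : ∀ z : E2, ‖z‖ ≤ 1 → z ∉ goodSet ψ₁ ψ₂ → f z = 0) {η : ℝ} (hη : 0 < η) :
    ∃ r < 1, ∀ z ∈ goodSet ψ₁ ψ₂, r < ‖proj ψ₁ ψ₂ z‖ → ‖f z‖ < η := by
  set C : Set E2 := closedBall 0 1 ∩ (fun z => ‖f z‖) ⁻¹' (Ici η) with hC
  have hCc : IsCompact C :=
    (isCompact_closedBall (0 : E2) 1).of_isClosed_subset
      (hf.norm.preimage_isClosed_of_isClosed isClosed_closedBall isClosed_Ici) inter_subset_left
  have hCg : C ⊆ goodSet ψ₁ ψ₂ := by
    intro z hz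
    by_contra hg
    have h1 := hK z (by simpa using hz.1) hg
    have h2 : η ≤ ‖f z‖ := hz.2
    rw [h1, norm_zero] at h2
    linarith only [hη, h2]
  rcases C.eq_empty_or_nonempty with h | h
  · refine ⟨0, one_pos, fun z hz _ => ?_⟩
    by_contra hle
    push Not at hle
    have : z ∈ C := ⟨by simpa using hz.1, hle⟩
    rw [h] at this
    exact this
  · have hcont : ContinuousOn (fun z => ‖proj ψ₁ ψ₂ z‖) C := fun z hz =>
      ((H.continuousWithinAt_proj (hCg hz)).mono inter_subset_left).norm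
    obtain ⟨z₀, hz₀, hmax⟩ := hCc.exists_isMaxOn h hcont
    refine ⟨‖proj ψ₁ ψ₂ z₀‖, (proj_spec (hCg hz₀)).1, fun z hz hlt => ?_⟩
    by_contra hle
    push Not at hle
    have h1 : z ∈ C := ⟨by simpa using hz.1, hle⟩
    have h2 : ‖proj ψ₁ ψ₂ z‖ ≤ ‖proj ψ₁ ψ₂ z₀‖ := hmax h1
    linarith

end Admissible

end Proj

end Pool.Agent.Work.MP_0c4bbf_an
end

-- merged part: Pool.Agent.Work.MP_0c4bbf_an.Geometry
section
/-!
The fibration of the ball by complex lines attached to the lacunary series, and two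
ball-algebra functions whose common zero set is the exceptional boundary set.
-/

set_option autoImplicit false

open Metric Set Filter Topology Complex

namespace Pool.Agent.Work.MP_0c4bbf_an

/-- First component. -/
noncomputable def psi1 (a : ℂ) : ℂ := (1 - lam a) * (1 + lam a)⁻¹

/-- Second component. -/
noncomputable def psi2 (a : ℂ) : ℂ := 2 * a * phi a * (1 + lam a)⁻¹

lemma ne_zero_of_small {u : ℂ} (hu : ‖u‖ < 1) : 1 + u ≠ 0 ∧ 1 - u ≠ 0 := by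
  constructor
  · intro h
    have : u = -1 := by linear_combination h
    rw [this] at hu; simp at hu
  · intro h
    have : u = 1 := by linear_combination -h
    rw [this] at hu; simp at hu

lemma lam_ne {a : ℂ} (ha : ‖a‖ ≤ 1) : 1 + lam a ≠ 0 ∧ 1 - lam a ≠ 0 :=
  ne_zero_of_small ((norm_lam_le ha).trans_lt (by norm_num))

lemma mem_closure_iff_norm {a : ℂ} : a ∈ closure (ball (0 : ℂ) 1) ↔ ‖a‖ ≤ 1 := by
  rw [closure_ball 0 one_ne_zero]; simp

lemma admissible : Admissible psi1 psi2 := by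
  have hinv : DiffContOnCl ℂ (fun a => (1 + lam a)⁻¹) (ball 0 1) :=
    (diffContOnCl_const.add diffContOnCl_lam).inv
      (fun a ha => (lam_ne (mem_closure_iff_norm.1 ha)).1)
  refine ⟨(diffContOnCl_const.sub diffContOnCl_lam).smul hinv, ?_, ?_, ?_⟩
  · have h1 : DiffContOnCl ℂ (fun a : ℂ => 2 * a) (ball 0 1) :=
      Differentiable.diffContOnCl (by fun_prop)
    exact (h1.smul diffContOnCl_phi).smul hinv
  · intro a ha
    have h1 := re_lam_sub_sq ha.le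
    rw [ha] at h1
    have h2 : (lam a).re = ‖phi a‖ ^ 2 := by
      have : |(lam a).re - ‖phi a‖ ^ 2| ≤ 0 := by linarith only [h1]
      linarith only [this, abs_nonpos_iff.1 this]
    have h3 : 0 < ‖1 + lam a‖ := norm_pos_iff.2 (lam_ne ha.le).1
    have h4 : ‖1 - lam a‖ ^ 2 + 4 * ‖phi a‖ ^ 2 = ‖1 + lam a‖ ^ 2 := by
      rw [← h2]
      simp only [Complex.sq_norm, Complex.normSq_apply, Complex.sub_re, Complex.sub_im,
        Complex.add_re, Complex.add_im, Complex.one_re, Complex.one_im]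
      ring
    simp only [psi1, psi2, norm_mul, norm_inv, ha, Complex.norm_ofNat]
    rw [mul_pow, mul_pow, ← add_mul, inv_pow, ← div_eq_mul_inv, div_le_one (by positivity)]
    linarith only [h4]
  · intro z hz
    by_contra hne
    push Not at hne
    have h0 := hne 0 (by simp)
    have h1 := hne (1 / 2) (by norm_num)
    have hl0 := lam_ne (a := 0) (by simp)
    have hh : ‖(1 / 2 : ℂ)‖ ≤ 1 := by norm_num
    have hl1 := lam_ne hh
    simp only [pairing, psi1, psi2, mul_zero, zero_mul, add_zero, mul_eq_zero, inv_eq_zero,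
      hl0.1, hl0.2, or_false] at h0
    simp only [pairing, psi1, psi2, h0, zero_mul, zero_add] at h1
    have h2 : 2 * z 1 * phi (1 / 2) = 1 + lam (1 / 2) := by
      have := hl1.1
      field_simp at h1
      linear_combination h1
    have h3 : ‖z 1‖ ≤ 1 := (PiLp.norm_apply_le z 1).trans hz
    have h4 := norm_phi_le hh
    have h5 := norm_lam_le hh
    have h6 : ‖2 * z 1 * phi (1 / 2)‖ ≤ 1 / 250 := by
      rw [norm_mul, norm_mul, Complex.norm_ofNat]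
      linarith only [h4, h3, norm_nonneg (z 1), norm_nonneg (phi (1 / 2)), mul_nonneg_of_nonpos_of_nonpos (Mathlib.Tactic.Linarith.sub_nonpos_of_le h3) (Mathlib.Tactic.Linarith.sub_nonpos_of_le (norm_nonneg (phi (1 / 2 : ℂ))))]
    have h7 : ‖(1 : ℂ)‖ ≤ ‖1 + lam (1 / 2)‖ + ‖lam (1 / 2)‖ := by
      simpa using norm_sub_le (1 + lam (1 / 2)) (lam (1 / 2))
    rw [h2] at h6
    rw [norm_one] at h7
    linarith only [h5, h6, h7]

/-- Auxiliary quantity on the fibre. -/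
noncomputable def tau (a w : ℂ) : ℂ := lam a - 2 * w * phi a

lemma norm_tau_le {a w : ℂ} (ha : ‖a‖ ≤ 1) (hw : ‖w‖ ≤ 1) : ‖tau a w‖ ≤ 1 / 200 := by
  unfold tau
  refine (norm_sub_le _ _).trans ?_
  rw [norm_mul, norm_mul, Complex.norm_ofNat]
  have h4 := norm_phi_le ha
  have h5 := norm_lam_le ha
  linarith only [h4, h5, hw, norm_nonneg w, norm_nonneg (phi a), mul_nonneg_of_nonpos_of_nonpos (Mathlib.Tactic.Linarith.sub_nonpos_of_le hw) (Mathlib.Tactic.Linarith.sub_nonpos_of_le (norm_nonneg (phi a)))]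

lemma tau_identity (a w : ℂ) :
    ‖1 - tau a w‖ ^ 2 - ‖a‖ ^ 2 * ‖1 + tau a w‖ ^ 2 - 4 * ‖w‖ ^ 2 =
      (1 - ‖a‖ ^ 2) * ‖1 + tau a w‖ ^ 2 - 4 * ‖w - (starRingEnd ℂ) (phi a)‖ ^ 2 -
        4 * ((lam a).re - ‖phi a‖ ^ 2) := by
  unfold tau
  generalize ‖a‖ ^ 2 = t
  simp only [Complex.sq_norm, Complex.normSq_apply, Complex.sub_re, Complex.sub_im,
    Complex.add_re, Complex.add_im, Complex.one_re, Complex.one_im, Complex.mul_re,
    Complex.mul_im, Complex.conj_re, Complex.conj_im, Complex.re_ofNat, Complex.im_ofNat]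
  ring

/-- The fibre coordinate. -/
noncomputable def wc (z : E2) : ℂ :=
  (1 - lam (proj psi1 psi2 z)) * z 1 * (2 * (1 - z 1 * phi (proj psi1 psi2 z)))⁻¹

lemma one_sub_mul_phi_ne {z : E2} (hz : ‖z‖ ≤ 1) {a : ℂ} (ha : ‖a‖ ≤ 1) :
    ‖z 1 * phi a‖ ≤ 1 / 500 ∧ 1 - z 1 * phi a ≠ 0 := by
  have h3 : ‖z 1‖ ≤ 1 := (PiLp.norm_apply_le z 1).trans hz
  have h4 := norm_phi_le ha
  have h : ‖z 1 * phi a‖ ≤ 1 / 500 := by
    rw [norm_mul]; linarith only [h4, h3, norm_nonneg (z 1), norm_nonneg (phi a), mul_nonneg_of_nonpos_of_nonpos (Mathlib.Tactic.Linarith.sub_nonpos_of_le h3) (Mathlib.Tactic.Linarith.sub_nonpos_of_le (norm_nonneg (phi a)))]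
  exact ⟨h, (ne_zero_of_small (h.trans_lt (by norm_num))).2⟩

lemma wc_close {z : E2} (hz : z ∈ goodSet psi1 psi2) :
    ‖wc z - (starRingEnd ℂ) (phi (proj psi1 psi2 z))‖ ^ 2 ≤ 1 - ‖proj psi1 psi2 z‖ ^ 2 := by
  obtain ⟨ha, hfa⟩ := proj_spec hz
  have hw : wc z = (1 - lam (proj psi1 psi2 z)) * z 1 *
    (2 * (1 - z 1 * phi (proj psi1 psi2 z)))⁻¹ := rfl
  generalize proj psi1 psi2 z = a at ha hfa hw ⊢
  generalize wc z = w at hw ⊢
  obtain ⟨l1, l2⟩ := lam_ne ha.le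
  obtain ⟨p1, p2⟩ := one_sub_mul_phi_ne hz.1 ha.le
  have hz1 : ‖z 1‖ ≤ 1 := (PiLp.norm_apply_le z 1).trans hz.1
  have hl := norm_lam_le ha.le
  have e0 : w * (2 * (1 - z 1 * phi a)) = (1 - lam a) * z 1 := by
    rw [hw]; field_simp
  have hw1 : ‖w‖ ≤ 1 := by
    have h1 : ‖w‖ * (2 * ‖1 - z 1 * phi a‖) = ‖1 - lam a‖ * ‖z 1‖ := by
      have := congrArg norm e0
      simpa only [norm_mul, Complex.norm_ofNat] using this
    have h2 : ‖1 - lam a‖ ≤ 1 + 1 / 1000 := by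
      have := norm_sub_le (1 : ℂ) (lam a)
      rw [norm_one] at this; linarith only [hl, this]
    have h3 : 1 - 1 / 500 ≤ ‖1 - z 1 * phi a‖ := by
      have := norm_sub_norm_le (1 : ℂ) (z 1 * phi a)
      rw [norm_one] at this; linarith only [p1, this]
    (refine le_of_not_gt fun h_nl => ?_; linarith only [h_nl, h1, h2, h3, hz1, norm_nonneg w, norm_nonneg (z 1), norm_nonneg (1 - lam a), mul_nonneg_of_nonpos_of_nonpos (Mathlib.Tactic.Linarith.sub_nonpos_of_le hz1) (Mathlib.Tactic.Linarith.sub_nonpos_of_le (norm_nonneg ((1 : ℂ) - lam a))), mul_nonneg_of_nonpos_of_nonpos (Mathlib.Tactic.Linarith.sub_nonpos_of_le h3) (le_of_lt (Mathlib.Tactic.Linarith.sub_neg_of_lt h_nl))])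
  have e1 : z 1 * (1 - tau a w) = 2 * w := by
    unfold tau; linear_combination -e0
  have e2 : z 0 * (1 - tau a w) = a * (1 + tau a w) := by
    simp only [pairing, psi1, psi2] at hfa
    have h1 : z 0 * (1 - lam a) + z 1 * (2 * a * phi a) = a * (1 + lam a) := by
      field_simp at hfa
      linear_combination hfa
    have h2 : (1 - tau a w) * (1 - z 1 * phi a) = 1 - lam a := by
      unfold tau; linear_combination (phi a) * e0
    apply mul_right_cancel₀ p2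
    linear_combination (z 0 + a) * h2 + h1
  have n1 : ‖z 1‖ ^ 2 * ‖1 - tau a w‖ ^ 2 = 4 * ‖w‖ ^ 2 := by
    rw [← mul_pow, ← norm_mul, e1, norm_mul, Complex.norm_ofNat]; ring
  have n2 : ‖z 0‖ ^ 2 * ‖1 - tau a w‖ ^ 2 = ‖a‖ ^ 2 * ‖1 + tau a w‖ ^ 2 := by
    rw [← mul_pow, ← norm_mul, e2, norm_mul, mul_pow]
  have n3 : ‖z 0‖ ^ 2 + ‖z 1‖ ^ 2 ≤ 1 := by
    rw [← normSq_E2]; exact pow_le_one₀ (norm_nonneg _) hz.1
  have n4 := tau_identity a w
  have n5 := (abs_le.1 (re_lam_sub_sq ha.le)).1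
  have n6 : ‖1 + tau a w‖ ≤ 1 + 1 / 200 := by
    have := norm_add_le (1 : ℂ) (tau a w)
    have := norm_tau_le ha.le hw1
    rw [norm_one] at *; linarith
  have n7 : ‖1 + tau a w‖ ^ 2 ≤ 2 := by linarith only [n6, norm_nonneg (1 + tau a w), mul_nonneg_of_nonpos_of_nonpos (Mathlib.Tactic.Linarith.sub_nonpos_of_le n6) (Mathlib.Tactic.Linarith.sub_nonpos_of_le (norm_nonneg ((1 : ℂ) + tau a w)))]
  have hd : 0 ≤ 1 - ‖a‖ ^ 2 := sub_nonneg.2 (sq_norm_le_one ha.le)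
  (refine le_of_not_gt fun h_nl => ?_; linarith only [h_nl, n1, n2, n4, n5, hd, n3, n7, sq_nonneg ‖1 - tau a w‖, mul_nonneg_of_nonpos_of_nonpos (Mathlib.Tactic.Linarith.sub_nonpos_of_le (sq_nonneg ‖(1 : ℂ) - tau a w‖)) (Mathlib.Tactic.Linarith.sub_nonpos_of_le n3), mul_nonneg_of_nonpos_of_nonpos (Mathlib.Tactic.Linarith.sub_nonpos_of_le (sq_nonneg ‖w - (starRingEnd ℂ) (phi a)‖)) (Mathlib.Tactic.Linarith.sub_nonpos_of_le n7), mul_nonneg_of_nonpos_of_nonpos (Mathlib.Tactic.Linarith.sub_nonpos_of_le (sq_nonneg ‖(1 : ℂ) + tau a w‖)) (le_of_lt (Mathlib.Tactic.Linarith.sub_neg_of_lt h_nl))])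

lemma differentiableAt_lam {a : ℂ} (ha : ‖a‖ < 1) : DifferentiableAt ℂ lam a :=
  diffContOnCl_lam.differentiableOn.differentiableAt (isOpen_ball.mem_nhds (by simpa using ha))

lemma differentiableAt_phi {a : ℂ} (ha : ‖a‖ < 1) : DifferentiableAt ℂ phi a :=
  diffContOnCl_phi.differentiableOn.differentiableAt (isOpen_ball.mem_nhds (by simpa using ha))

open Classical in
/-- The ball-algebra function attached to a pair. -/
noncomputable def gfun (Q P : ℂ → ℂ) (z : E2) : ℂ :=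
  if z ∈ goodSet psi1 psi2 then Q (proj psi1 psi2 z) * wc z - P (proj psi1 psi2 z) else 0

lemma gfun_of_mem {Q P : ℂ → ℂ} {z : E2} (hz : z ∈ goodSet psi1 psi2) :
    gfun Q P z = Q (proj psi1 psi2 z) * wc z - P (proj psi1 psi2 z) := if_pos hz

lemma gfun_of_not_mem {Q P : ℂ → ℂ} {z : E2} (hz : z ∉ goodSet psi1 psi2) :
    gfun Q P z = 0 := if_neg hz

lemma gfun_differentiableOn {Q P : ℂ → ℂ} (hQ : DifferentiableOn ℂ Q (ball 0 1))
    (hP : DifferentiableOn ℂ P (ball 0 1)) : DifferentiableOn ℂ (gfun Q P) (ball 0 1) := by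
  intro z₀ hz₀
  have hz₀' : ‖z₀‖ < 1 := by simpa using hz₀
  have hg := admissible.mem_good hz₀'
  have ha := (proj_spec hg).1
  have hnb : ball (0 : ℂ) 1 ∈ 𝓝 (proj psi1 psi2 z₀) := isOpen_ball.mem_nhds (by simpa using ha)
  have hp := admissible.differentiableAt_proj hz₀'
  have h1 : DifferentiableAt ℂ (fun z => Q (proj psi1 psi2 z)) z₀ :=
    (hQ.differentiableAt hnb).comp z₀ hp
  have h2 : DifferentiableAt ℂ (fun z => P (proj psi1 psi2 z)) z₀ :=
    (hP.differentiableAt hnb).comp z₀ hp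
  have h3 : DifferentiableAt ℂ (fun z => lam (proj psi1 psi2 z)) z₀ :=
    (differentiableAt_lam ha).comp z₀ hp
  have h4 : DifferentiableAt ℂ (fun z => phi (proj psi1 psi2 z)) z₀ :=
    (differentiableAt_phi ha).comp z₀ hp
  have h5 : DifferentiableAt ℂ (fun z : E2 => z 1) z₀ :=
    (EuclideanSpace.proj (1 : Fin 2) : E2 →L[ℂ] ℂ).differentiableAt
  have h6 : DifferentiableAt ℂ wc z₀ := by
    unfold wc
    refine (((differentiableAt_const _).sub h3).mul h5).mul (DifferentiableAt.inv ?_ ?_)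
    · exact (differentiableAt_const _).mul ((differentiableAt_const _).sub (h5.mul h4))
    · exact mul_ne_zero two_ne_zero (one_sub_mul_phi_ne hz₀'.le ha.le).2
  refine DifferentiableAt.differentiableWithinAt ?_
  refine ((h1.mul h6).sub h2).congr_of_eventuallyEq ?_
  filter_upwards [isOpen_ball.mem_nhds hz₀] with z hz
  exact gfun_of_mem (admissible.mem_good (by simpa using hz))

lemma gfun_continuousOn {Q P : ℂ → ℂ} (hQ : DifferentiableOn ℂ Q (ball 0 1))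
    (hP : DifferentiableOn ℂ P (ball 0 1))
    (hs : ∀ η > 0, ∃ r < 1, ∀ a w : ℂ, r < ‖a‖ → ‖a‖ < 1 →
        ‖w - (starRingEnd ℂ) (phi a)‖ ^ 2 ≤ 1 - ‖a‖ ^ 2 → ‖Q a * w - P a‖ ≤ η) :
    ContinuousOn (gfun Q P) (closedBall 0 1) := by
  intro z₀ hz₀
  have hz₀' : ‖z₀‖ ≤ 1 := by simpa using hz₀
  by_cases hg : z₀ ∈ goodSet psi1 psi2
  · have ha := (proj_spec hg).1
    have hnb : ball (0 : ℂ) 1 ∈ 𝓝 (proj psi1 psi2 z₀) :=
      isOpen_ball.mem_nhds (by simpa using ha)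
    have hp := admissible.continuousWithinAt_proj hg
    have h1 : ContinuousWithinAt (fun z => Q (proj psi1 psi2 z)) (closedBall 0 1) z₀ :=
      ContinuousAt.comp_continuousWithinAt (f := proj psi1 psi2)
        (hQ.differentiableAt hnb).continuousAt hp
    have h2 : ContinuousWithinAt (fun z => P (proj psi1 psi2 z)) (closedBall 0 1) z₀ :=
      ContinuousAt.comp_continuousWithinAt (f := proj psi1 psi2)
        (hP.differentiableAt hnb).continuousAt hp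
    have h3 : ContinuousWithinAt (fun z => lam (proj psi1 psi2 z)) (closedBall 0 1) z₀ :=
      ContinuousAt.comp_continuousWithinAt (f := proj psi1 psi2)
        (differentiableAt_lam ha).continuousAt hp
    have h4 : ContinuousWithinAt (fun z => phi (proj psi1 psi2 z)) (closedBall 0 1) z₀ :=
      ContinuousAt.comp_continuousWithinAt (f := proj psi1 psi2)
        (differentiableAt_phi ha).continuousAt hp
    have h5 : ContinuousWithinAt (fun z : E2 => z 1) (closedBall 0 1) z₀ :=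
      (EuclideanSpace.proj (1 : Fin 2) : E2 →L[ℂ] ℂ).continuous.continuousWithinAt
    have h6 : ContinuousWithinAt wc (closedBall 0 1) z₀ := by
      unfold wc
      refine ((continuousWithinAt_const.sub h3).mul h5).mul (ContinuousWithinAt.inv₀ ?_ ?_)
      · exact continuousWithinAt_const.mul (continuousWithinAt_const.sub (h5.mul h4))
      · exact mul_ne_zero two_ne_zero (one_sub_mul_phi_ne hz₀' ha.le).2
    refine ((h1.mul h6).sub h2).congr_of_eventuallyEq ?_ (gfun_of_mem hg)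
    filter_upwards [admissible.eventually_good hg] with z hz
    exact gfun_of_mem hz
  · rw [Metric.continuousWithinAt_iff]
    intro ε hε
    obtain ⟨r, hr, hr'⟩ := hs (ε / 2) (by positivity)
    obtain ⟨δ, hδ, hδ'⟩ := admissible.near_bad hz₀' hg hr
    refine ⟨δ, hδ, fun z _ hzz => ?_⟩
    rw [gfun_of_not_mem hg, dist_zero_right]
    by_cases hz : z ∈ goodSet psi1 psi2
    · rw [gfun_of_mem hz]
      have := hr' _ (wc z) (hδ' z hz (by rwa [dist_eq_norm] at hzz)) (proj_spec hz).1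
        (wc_close hz)
      linarith only [hε, this]
    · rw [gfun_of_not_mem hz, norm_zero]; exact hε

/-- No point of the closed ball outside the exceptional set is a common zero. -/
theorem exists_nonvanishing {z : E2} (hz : z ∈ goodSet psi1 psi2) :
    ∃ f : E2 → ℂ, ContinuousOn f (closedBall 0 1) ∧ DifferentiableOn ℂ f (ball 0 1) ∧
      (∀ w ∈ closedBall (0 : E2) 1 \ goodSet psi1 psi2, f w = 0) ∧ f z ≠ 0 := by
  obtain ⟨QA, PA, hQA, hPA, tQA, tPA, sA⟩ := exists_pair (x0 := fun _ => 1) (x1 := fun _ => 1)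
    (y0 := fun _ => 0) (by fun_prop) (by fun_prop) (by fun_prop) (by simp) (by simp) (by simp)
  obtain ⟨QB, PB, hQB, hPB, tQB, tPB, sB⟩ := exists_pair (x0 := fun _ => 0) (x1 := fun a => a)
    (y0 := fun _ => ee 0) (by fun_prop) (by fun_prop) (by fun_prop) (by simp)
    (fun a ha => ha) (by simp)
  have ha := (proj_spec hz).1
  have hdet : QA (proj psi1 psi2 z) * PB (proj psi1 psi2 z) -
      QB (proj psi1 psi2 z) * PA (proj psi1 psi2 z) = ee 0 := by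
    have h1 := ((tQA _ ha).mul (tPB _ ha)).sub ((tQB _ ha).mul (tPA _ ha))
    simp only [det_identity] at h1
    exact tendsto_nhds_unique h1 tendsto_const_nhds
  by_cases hA : gfun QA PA z = 0
  · refine ⟨gfun QB PB, gfun_continuousOn hQB hPB sB, gfun_differentiableOn hQB hPB,
      fun w hw => gfun_of_not_mem hw.2, fun hB => ?_⟩
    rw [gfun_of_mem hz] at hA hB
    have h0 : (ee 0 : ℂ) = 0 := by
      rw [← hdet]
      linear_combination QB (proj psi1 psi2 z) * hA - QA (proj psi1 psi2 z) * hB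
    exact (ee_pos 0).ne' (by exact_mod_cast h0)
  · exact ⟨gfun QA PA, gfun_continuousOn hQA hPA sA, gfun_differentiableOn hQA hPA,
      fun w hw => gfun_of_not_mem hw.2, hA⟩

end Pool.Agent.Work.MP_0c4bbf_an
end

-- merged part: Pool.Agent.Work.MP_0c4bbf_an.Sections
section
/-!
Holomorphic sections of the fibration over annuli; the exceptional set is not a zero set.
-/

set_option autoImplicit false

open Metric Set Filter Topology Complex Real

namespace Pool.Agent.Work.MP_0c4bbf_an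

/-- The point of the fibre over `a` with fibre coordinate `w`. -/
noncomputable def ZZ (a w : ℂ) : E2 :=
  !₂[a * (1 + tau a w) * (1 - tau a w)⁻¹, 2 * w * (1 - tau a w)⁻¹]

lemma ZZ_zero (a w : ℂ) : ZZ a w 0 = a * (1 + tau a w) * (1 - tau a w)⁻¹ := rfl

lemma ZZ_one (a w : ℂ) : ZZ a w 1 = 2 * w * (1 - tau a w)⁻¹ := rfl

lemma ZZ_zero_zero : ZZ 0 0 = 0 := by
  ext i
  fin_cases i
  · simp [ZZ_zero]
  · simp [ZZ_one]

lemma norm_le_one_of_close {a w : ℂ} (ha : ‖a‖ ≤ 1) {s : ℝ} (hs0 : 0 ≤ s)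
    (hs : s ^ 2 = 1 - ‖a‖ ^ 2) (hw : ‖w - (starRingEnd ℂ) (phi a)‖ ≤ s / 4) : ‖w‖ ≤ 1 := by
  have h1 : ‖w‖ ≤ ‖w - (starRingEnd ℂ) (phi a)‖ + ‖(starRingEnd ℂ) (phi a)‖ := by
    simpa using norm_add_le (w - (starRingEnd ℂ) (phi a)) ((starRingEnd ℂ) (phi a))
  rw [Complex.norm_conj] at h1
  have h2 := norm_phi_le ha
  have h3 : s ≤ 1 := by (refine le_of_not_gt fun h_nl => ?_; linarith only [h_nl, hs, hs0, sq_nonneg ‖a‖, sq_nonneg ‖a‖, mul_nonneg_of_nonpos_of_nonpos (Mathlib.Tactic.Linarith.sub_nonpos_of_le hs0) (le_of_lt (Mathlib.Tactic.Linarith.sub_neg_of_lt h_nl))])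
  linarith only [hw, h1, h2, h3]

lemma tau_ne {a w : ℂ} (ha : ‖a‖ ≤ 1) (hw : ‖w‖ ≤ 1) : 1 - tau a w ≠ 0 :=
  (ne_zero_of_small ((norm_tau_le ha hw).trans_lt (by norm_num))).2

lemma norm_ZZ_lt {a w : ℂ} (ha : ‖a‖ < 1) {s : ℝ} (hs0 : 0 ≤ s)
    (hs : s ^ 2 = 1 - ‖a‖ ^ 2) (hw : ‖w - (starRingEnd ℂ) (phi a)‖ ≤ s / 4) : ‖ZZ a w‖ < 1 := by
  have hw1 := norm_le_one_of_close ha.le hs0 hs hw
  have ht := norm_tau_le ha.le hw1
  have hne := tau_ne ha.le hw1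
  have hpos : 0 < ‖1 - tau a w‖ := norm_pos_iff.2 hne
  have hd : 0 < 1 - ‖a‖ ^ 2 := sub_pos.2 (pow_lt_one₀ (norm_nonneg a) ha two_ne_zero)
  have e : ‖ZZ a w‖ ^ 2 * ‖1 - tau a w‖ ^ 2 = ‖a‖ ^ 2 * ‖1 + tau a w‖ ^ 2 + 4 * ‖w‖ ^ 2 := by
    rw [normSq_E2, ZZ_zero, ZZ_one]
    simp only [norm_mul, norm_inv, Complex.norm_ofNat]
    field_simp
    ring
  have n4 := tau_identity a w
  have n5 := (abs_le.1 (re_lam_sub_sq ha.le)).2
  have n6 : 1 - 1 / 200 ≤ ‖1 + tau a w‖ := by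
    have := norm_sub_le (1 + tau a w) (tau a w)
    simp only [add_sub_cancel_right, norm_one] at this
    linarith only [ht, this]
  have n7 : 1 / 2 ≤ ‖1 + tau a w‖ ^ 2 := by linarith only [n6, sq_nonneg (‖1 + tau a w‖ - 1)]
  have n8 : ‖w - (starRingEnd ℂ) (phi a)‖ ^ 2 ≤ (1 - ‖a‖ ^ 2) / 16 := by
    rw [← hs]; linarith only [pow_le_pow_left₀ (norm_nonneg _) hw 2]
  have n9 : ‖ZZ a w‖ ^ 2 * ‖1 - tau a w‖ ^ 2 < 1 * ‖1 - tau a w‖ ^ 2 := by linarith only [hs, hd, e, n4, n5, n8, n7, Mathlib.Tactic.Linarith.mul_zero_eq (Mathlib.Tactic.Linarith.sub_nonpos_of_le (sq_nonneg ‖(1 : ℂ) + tau a w‖)) (sub_eq_zero_of_eq hs), mul_nonneg_of_nonpos_of_nonpos (Mathlib.Tactic.Linarith.sub_nonpos_of_le (sq_nonneg s)) (Mathlib.Tactic.Linarith.sub_nonpos_of_le n7)]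
  have n10 : ‖ZZ a w‖ ^ 2 < 1 := lt_of_mul_lt_mul_right n9 (by positivity)
  exact (pow_lt_one_iff_of_nonneg (norm_nonneg _) two_ne_zero).1 n10

lemma proj_ZZ {a w : ℂ} (ha : ‖a‖ < 1) {s : ℝ} (hs0 : 0 ≤ s)
    (hs : s ^ 2 = 1 - ‖a‖ ^ 2) (hw : ‖w - (starRingEnd ℂ) (phi a)‖ ≤ s / 4) :
    proj psi1 psi2 (ZZ a w) = a := by
  refine admissible.proj_eq (norm_ZZ_lt ha hs0 hs hw).le ha ?_
  have hne := tau_ne ha.le (norm_le_one_of_close ha.le hs0 hs hw)
  have hl := (lam_ne ha.le).1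
  simp only [pairing, ZZ_zero, ZZ_one, psi1, psi2]
  field_simp
  unfold tau
  ring

lemma differentiableAt_ZZ {u v : ℂ → ℂ} {x : ℂ} (hu : DifferentiableAt ℂ u x)
    (hv : DifferentiableAt ℂ v x) (ha : ‖u x‖ < 1) (hw : ‖v x‖ ≤ 1) :
    DifferentiableAt ℂ (fun y => ZZ (u y) (v y)) x := by
  have h3 : DifferentiableAt ℂ (fun y => lam (u y)) x := (differentiableAt_lam ha).comp x hu
  have h4 : DifferentiableAt ℂ (fun y => phi (u y)) x := (differentiableAt_phi ha).comp x hu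
  have h5 : DifferentiableAt ℂ (fun y => tau (u y) (v y)) x := by
    unfold tau
    exact h3.sub (((differentiableAt_const _).mul hv).mul h4)
  have h6 : DifferentiableAt ℂ (fun y => (1 - tau (u y) (v y))⁻¹) x :=
    ((differentiableAt_const _).sub h5).inv (tau_ne ha.le hw)
  rw [differentiableAt_euclidean]
  intro i
  fin_cases i
  · exact (hu.mul ((differentiableAt_const _).add h5)).mul h6
  · exact ((differentiableAt_const _).mul hv).mul h6

/-- The holomorphic sections. -/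
noncomputable def SS (a : ℂ) : ℕ → ℂ
  | 0 => 0
  | k + 1 => RR a k * (a ^ (16 ^ k))⁻¹

/-- The radii of the annuli. -/
noncomputable def rho (k : ℕ) : ℝ := 1 - 1 / (2 * 16 ^ k)

lemma rho_lt_one (k : ℕ) : rho k < 1 := by
  unfold rho
  have : (0 : ℝ) < 1 / (2 * 16 ^ k) := by positivity
  linarith only [this]

lemma half_le_rho (k : ℕ) : 1 / 2 ≤ rho k := by
  unfold rho
  have h1 : (1 : ℝ) ≤ 16 ^ k := one_le_pow₀ (by norm_num)
  have : (1 : ℝ) / (2 * 16 ^ k) ≤ 1 / 2 := one_div_le_one_div_of_le (by norm_num) (by linarith)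
  linarith only [this]

lemma rho_pos (k : ℕ) : 0 < rho k := lt_of_lt_of_le (by norm_num) (half_le_rho k)

lemma rho_le_succ (k : ℕ) : rho k ≤ rho (k + 1) := by
  unfold rho
  have h1 : (0 : ℝ) < 16 ^ k := by positivity
  have : (1 : ℝ) / (2 * 16 ^ (k + 1)) ≤ 1 / (2 * 16 ^ k) :=
    one_div_le_one_div_of_le (by positivity) (by rw [pow_succ]; linarith only [h1])
  linarith only [this]

lemma half_le_pow {a : ℂ} {k : ℕ} (h1 : rho k ≤ ‖a‖) (ha : ‖a‖ ≤ 1) :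
    1 / 2 ≤ ‖a ^ (16 ^ k)‖ := by
  rw [norm_pow]
  have h3 := (one_sub_pow_bounds (norm_nonneg a) ha (16 ^ k)).2.2
  push_cast at h3
  have h4 : (16 : ℝ) ^ k * (1 - ‖a‖) ≤ 16 ^ k * (1 / (2 * 16 ^ k)) := by
    unfold rho at h1
    gcongr; linarith only [h1]
  have h5 : (16 : ℝ) ^ k * (1 / (2 * 16 ^ k)) = 1 / 2 := by field_simp
  linarith only [h3, h4, h5]

lemma sqrt_lower {a : ℂ} {k : ℕ} (h1 : ‖a‖ ≤ rho k) {s : ℝ} (hs0 : 0 ≤ s)
    (hs : s ^ 2 = 1 - ‖a‖ ^ 2) : 1 / 2 ≤ 4 ^ k * s := by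
  refine (pow_le_pow_iff_left₀ (by norm_num) (by positivity) two_ne_zero).1 ?_
  have e : ((4 : ℝ) ^ k * s) ^ 2 = 16 ^ k * (1 - ‖a‖ ^ 2) := by
    rw [mul_pow, hs, ← pow_mul, mul_comm k 2, pow_mul]; norm_num
  have h2 := rho_lt_one k
  have h3 : 1 / (2 * 16 ^ k) ≤ 1 - ‖a‖ ^ 2 := by
    unfold rho at h1 h2
    linarith only [h1, h2, norm_nonneg a, mul_nonneg_of_nonpos_of_nonpos (Mathlib.Tactic.Linarith.sub_nonpos_of_le h1) (Mathlib.Tactic.Linarith.sub_nonpos_of_le (norm_nonneg a)), mul_nonneg_of_nonpos_of_nonpos (le_of_lt (Mathlib.Tactic.Linarith.sub_neg_of_lt h2)) (Mathlib.Tactic.Linarith.sub_nonpos_of_le (norm_nonneg a))]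
  have h4 : (16 : ℝ) ^ k * (1 / (2 * 16 ^ k)) ≤ 16 ^ k * (1 - ‖a‖ ^ 2) := by gcongr
  have h5 : (16 : ℝ) ^ k * (1 / (2 * 16 ^ k)) = 1 / 2 := by field_simp
  rw [e]
  linarith only [h4, h5]

lemma ee_le_sqrt {a : ℂ} {k : ℕ} (h1 : ‖a‖ ≤ rho k) {s : ℝ} (hs0 : 0 ≤ s)
    (hs : s ^ 2 = 1 - ‖a‖ ^ 2) : ee k ≤ 1 / 500 * (2 / 3) ^ k * s := by
  have h2 := sqrt_lower h1 hs0 hs
  have h3 := ee_mul_four k
  have h4 := ee_pos k
  calc ee k ≤ ee k * (2 * (4 ^ k * s)) := by linarith only [h2, h4, mul_nonneg_of_nonpos_of_nonpos (Mathlib.Tactic.Linarith.sub_nonpos_of_le h2) (le_of_lt (Mathlib.Tactic.Linarith.sub_neg_of_lt h4))]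
    _ = 2 * (ee k * 4 ^ k) * s := by ring
    _ = _ := by rw [h3]; ring

lemma SS_close_succ {a : ℂ} {k : ℕ} (h1 : rho k ≤ ‖a‖) (h2 : ‖a‖ ≤ rho (k + 1)) {s : ℝ}
    (hs0 : 0 ≤ s) (hs : s ^ 2 = 1 - ‖a‖ ^ 2) :
    ‖SS a (k + 1) - (starRingEnd ℂ) (phi a)‖ ≤ s / 8 := by
  have ha : ‖a‖ ≤ 1 := h2.trans (rho_lt_one _).le
  have h3 := half_le_pow h1 ha
  have h4 : a ^ (16 ^ k) ≠ 0 := norm_pos_iff.1 (by linarith only [h3])
  have e : a ^ (16 ^ k) * (SS a (k + 1) - (starRingEnd ℂ) (phi a)) = - WW a k := by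
    simp only [SS, WW]; field_simp; ring
  have h5 := norm_WW_le ha hs0 hs k
  have h6 := ee_le_sqrt h2 hs0 hs
  rw [ee_succ] at h6
  have h7 : ((2 : ℝ) / 3) ^ (k + 1) ≤ 1 := pow_le_one₀ (by norm_num) (by norm_num)
  have h8 := congrArg norm e
  rw [norm_mul, norm_neg] at h8
  (refine le_of_not_gt fun h_nl => ?_; linarith only [h_nl, hs0, h5, h6, h8, h3, h7, norm_nonneg (SS a (k + 1) - (starRingEnd ℂ) (phi a)), mul_nonneg_of_nonpos_of_nonpos (Mathlib.Tactic.Linarith.sub_nonpos_of_le hs0) (Mathlib.Tactic.Linarith.sub_nonpos_of_le h3), mul_nonneg_of_nonpos_of_nonpos (Mathlib.Tactic.Linarith.sub_nonpos_of_le hs0) (Mathlib.Tactic.Linarith.sub_nonpos_of_le h7), mul_nonneg_of_nonpos_of_nonpos (Mathlib.Tactic.Linarith.sub_nonpos_of_le h3) (le_of_lt (Mathlib.Tactic.Linarith.sub_neg_of_lt h_nl))])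

lemma SS_close_zero {a : ℂ} (h2 : ‖a‖ ≤ rho 0) {s : ℝ}
    (hs0 : 0 ≤ s) (hs : s ^ 2 = 1 - ‖a‖ ^ 2) :
    ‖SS a 0 - (starRingEnd ℂ) (phi a)‖ ≤ s / 8 := by
  have ha : ‖a‖ ≤ 1 := h2.trans (rho_lt_one _).le
  have h3 := sqrt_lower h2 hs0 hs
  have h4 := norm_phi_le ha
  simp only [SS, zero_sub, norm_neg, Complex.norm_conj]
  simp only [pow_zero, one_mul] at h3
  linarith only [h4, h3]

lemma SS_close {a : ℂ} {k : ℕ} (h : ‖a‖ = rho k) {s : ℝ}
    (hs0 : 0 ≤ s) (hs : s ^ 2 = 1 - ‖a‖ ^ 2) :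
    ‖SS a k - (starRingEnd ℂ) (phi a)‖ ≤ s / 8 := by
  cases k with
  | zero => exact SS_close_zero h.le hs0 hs
  | succ k => exact SS_close_succ (h ▸ rho_le_succ k) h.le hs0 hs

lemma SS_jump {a : ℂ} {k : ℕ} (h1 : rho k ≤ ‖a‖) (ha : ‖a‖ ≤ 1) :
    ‖SS a (k + 1) - SS a k‖ ≤ 2 * ee k := by
  have h3 := half_le_pow h1 ha
  have ha0 : a ≠ 0 := norm_pos_iff.1 (lt_of_lt_of_le (rho_pos k) h1)
  have e : a ^ (16 ^ k) * (SS a (k + 1) - SS a k) = ee k := by
    cases k with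
    | zero => simp only [SS, RR]; field_simp; ring
    | succ k =>
      simp only [SS, RR]
      rw [pow16, pow15]
      field_simp
      ring
  have h8 := congrArg norm e
  rw [norm_mul, norm_ee] at h8
  linarith only [h8, h3, norm_nonneg (SS a (k + 1) - SS a k), mul_nonneg_of_nonpos_of_nonpos (Mathlib.Tactic.Linarith.sub_nonpos_of_le h3) (Mathlib.Tactic.Linarith.sub_nonpos_of_le (norm_nonneg (SS a (k + (1 : ℕ)) - SS a k)))]

lemma differentiableAt_SS {a : ℂ} (ha : a ≠ 0) (k : ℕ) :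
    DifferentiableAt ℂ (fun y => SS y k) a := by
  cases k with
  | zero => exact differentiableAt_const _
  | succ k =>
    simp only [SS]
    exact (differentiable_RR k a).mul ((differentiableAt_id.pow _).inv (pow_ne_zero _ ha))

lemma norm_circleAverage_le {f : ℂ → ℂ} {R C : ℝ} (hR : 0 ≤ R)
    (h : ∀ x : ℂ, ‖x‖ = R → ‖f x‖ ≤ C) : ‖circleAverage f 0 R‖ ≤ C := by
  rw [circleAverage_def, norm_smul]
  have h1 := intervalIntegral.norm_integral_le_of_norm_le_const (a := 0) (b := 2 * π) (C := C)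
    (f := fun θ => f (circleMap 0 R θ)) (fun θ _ => h _ (by simp [abs_of_nonneg hR]))
  rw [sub_zero, abs_of_pos two_pi_pos] at h1
  rw [Real.norm_eq_abs, abs_of_pos (inv_pos.2 two_pi_pos)]
  calc (2 * π)⁻¹ * ‖∫ θ in (0 : ℝ)..2 * π, f (circleMap 0 R θ)‖ ≤ (2 * π)⁻¹ * (C * (2 * π)) := by
        gcongr
    _ = C := by field_simp

lemma exists_sqrt {a : ℂ} (ha : ‖a‖ ≤ 1) : ∃ s : ℝ, 0 ≤ s ∧ s ^ 2 = 1 - ‖a‖ ^ 2 :=
  ⟨√(1 - ‖a‖ ^ 2), Real.sqrt_nonneg _, Real.sq_sqrt (sub_nonneg.2 (sq_norm_le_one ha))⟩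

/-- A bounded holomorphic function tending to zero at the exceptional set is small at the
origin. -/
theorem norm_zero_le_half {h : E2 → ℂ} (hd : DifferentiableOn ℂ h (ball 0 1)) {M : ℝ}
    (hM : ∀ z : E2, ‖z‖ < 1 → ‖h z‖ ≤ M)
    (hs : ∀ η > 0, ∃ r < 1, ∀ z : E2, ‖z‖ < 1 → r < ‖proj psi1 psi2 z‖ → ‖h z‖ ≤ η) :
    ‖h 0‖ ≤ M / 2 := by
  have hM0 : 0 ≤ M := (norm_nonneg _).trans (hM 0 (by simp))
  have hda : ∀ z : E2, ‖z‖ < 1 → DifferentiableAt ℂ h z := fun z hz =>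
    hd.differentiableAt (isOpen_ball.mem_nhds (by simpa using hz))
  have hsec : ∀ (k : ℕ) (a : ℂ), DifferentiableAt ℂ (fun y => SS y k) a → ‖a‖ < 1 →
      (∀ s : ℝ, 0 ≤ s → s ^ 2 = 1 - ‖a‖ ^ 2 → ‖SS a k - (starRingEnd ℂ) (phi a)‖ ≤ s / 8) →
      DifferentiableAt ℂ (fun y => h (ZZ y (SS y k))) a := by
    intro k a hk ha hc
    obtain ⟨s, hs0, hs⟩ := exists_sqrt ha.le
    have h1 : ‖SS a k - (starRingEnd ℂ) (phi a)‖ ≤ s / 4 := (hc s hs0 hs).trans (by linarith only [hs0])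
    exact (hda _ (norm_ZZ_lt ha hs0 hs h1)).comp a
      (differentiableAt_ZZ differentiableAt_id hk ha (norm_le_one_of_close ha.le hs0 hs h1))
  set J : ℕ → ℂ := fun k => circleAverage (fun y => h (ZZ y (SS y k))) 0 (rho k) with hJ
  have hJ0 : J 0 = h 0 := by
    have h1 : DiffContOnCl ℂ (fun y => h (ZZ y (SS y 0))) (ball 0 |rho 0|) := by
      refine DifferentiableOn.diffContOnCl ?_
      rw [abs_of_pos (rho_pos 0), closure_ball 0 (rho_pos 0).ne']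
      intro a ha
      have ha' : ‖a‖ ≤ rho 0 := by simpa using ha
      exact (hsec 0 a (differentiableAt_const _) (ha'.trans_lt (rho_lt_one 0))
        (fun s hs0 hs => SS_close_zero ha' hs0 hs)).differentiableWithinAt
    simp only [hJ]
    rw [h1.circleAverage]
    simp only [SS, ZZ_zero_zero]
  have hann : ∀ (k : ℕ) (a : ℂ), rho k ≤ ‖a‖ → ‖a‖ ≤ rho (k + 1) →
      DifferentiableAt ℂ (fun y => h (ZZ y (SS y (k + 1)))) a := fun k a h1 h2 =>
    hsec (k + 1) a (differentiableAt_SS (norm_pos_iff.1 (lt_of_lt_of_le (rho_pos k) h1)) _)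
      (h2.trans_lt (rho_lt_one _)) (fun s hs0 hs => SS_close_succ h1 h2 hs0 hs)
  have hJs : ∀ k, J (k + 1) = circleAverage (fun y => h (ZZ y (SS y (k + 1)))) 0 (rho k) := by
    intro k
    simp only [hJ]
    rw [circleAverage_eq_circleIntegral (rho_pos _).ne', circleAverage_eq_circleIntegral
      (rho_pos _).ne']
    congr 1
    refine circleIntegral_sub_center_inv_smul_eq_of_differentiable_on_annulus_off_countable
      (rho_pos k) (rho_le_succ k) countable_empty ?_ ?_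
    · intro a ha
      exact (hann k a (by simpa using ha.2) (by simpa using ha.1)).continuousAt.continuousWithinAt
    · intro a ha
      have h1 : ‖a‖ < rho (k + 1) := by simpa using ha.1.1
      have h2 : rho k < ‖a‖ := by simpa using ha.1.2
      exact hann k a h2.le h1.le
  have hjump : ∀ k, dist (J k) (J (k + 1)) ≤ 64 / 500 * M * (2 / 3) ^ k := by
    intro k
    have hc1 : CircleIntegrable (fun y => h (ZZ y (SS y k))) 0 (rho k) := by
      refine ContinuousOn.circleIntegrable (rho_pos k).le (fun a ha => ?_)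
      have ha' : ‖a‖ = rho k := by simpa using ha
      exact (hsec k a (differentiableAt_SS (norm_pos_iff.1 (ha' ▸ rho_pos k)) _)
        (ha' ▸ rho_lt_one k) (fun s hs0 hs => SS_close ha' hs0 hs)).continuousAt.continuousWithinAt
    have hc2 : CircleIntegrable (fun y => h (ZZ y (SS y (k + 1)))) 0 (rho k) := by
      refine ContinuousOn.circleIntegrable (rho_pos k).le (fun a ha => ?_)
      have ha' : ‖a‖ = rho k := by simpa using ha
      exact (hann k a ha'.ge (ha' ▸ rho_le_succ k)).continuousAt.continuousWithinAt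
    rw [dist_comm, dist_eq_norm, hJs k]
    simp only [hJ]
    rw [← circleAverage_fun_sub hc2 hc1]
    refine norm_circleAverage_le (rho_pos k).le (fun a ha' => ?_)
    have ha : ‖a‖ < 1 := ha' ▸ rho_lt_one k
    obtain ⟨s, hs0, hs⟩ := exists_sqrt ha.le
    have hspos : 0 < s := by
      rcases hs0.lt_or_eq with h1 | h1
      · exact h1
      · rw [← h1] at hs; linarith only [ha, hs, norm_nonneg a, mul_nonneg_of_nonpos_of_nonpos (le_of_lt (Mathlib.Tactic.Linarith.sub_neg_of_lt ha)) (Mathlib.Tactic.Linarith.sub_nonpos_of_le (norm_nonneg a))]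
    have h1 := SS_close ha' hs0 hs
    have h2 := SS_jump ha'.ge ha.le
    have h3 := ee_le_sqrt ha'.le hs0 hs
    have h7 : ((2 : ℝ) / 3) ^ k ≤ 1 := pow_le_one₀ (by norm_num) (by norm_num)
    have hin : ∀ w ∈ ball (SS a k) (s / 8), ‖w - (starRingEnd ℂ) (phi a)‖ ≤ s / 4 := by
      intro w hw
      have h4 : ‖w - SS a k‖ < s / 8 := by simpa [dist_eq_norm] using hw
      have h5 := norm_add_le (w - SS a k) (SS a k - (starRingEnd ℂ) (phi a))
      rw [sub_add_sub_cancel] at h5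
      linarith only [h1, h4, h5]
    have hH : DifferentiableOn ℂ (fun w => h (ZZ a w)) (ball (SS a k) (s / 8)) := by
      intro w hw
      exact ((hda _ (norm_ZZ_lt ha hs0 hs (hin w hw))).comp w
        (differentiableAt_ZZ (differentiableAt_const a) differentiableAt_id ha
          (norm_le_one_of_close ha.le hs0 hs (hin w hw)))).differentiableWithinAt
    have hmaps : MapsTo (fun w => h (ZZ a w)) (ball (SS a k) (s / 8))
        (closedBall (h (ZZ a (SS a k))) (2 * M)) := by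
      intro w hw
      rw [mem_closedBall, dist_eq_norm]
      refine (norm_sub_le _ _).trans ?_
      have h4 := hM _ (norm_ZZ_lt ha hs0 hs (hin w hw))
      have h5 := hM _ (norm_ZZ_lt ha hs0 hs (hin _ (mem_ball_self (by positivity))))
      linarith only [h4, h5]
    have h6 := Complex.dist_le_div_mul_dist_of_mapsTo_ball hH hmaps (z := SS a (k + 1))
      (by rw [mem_ball, dist_eq_norm]; linarith only [hspos, h2, h3, hs0, h7, mul_nonneg_of_nonpos_of_nonpos (Mathlib.Tactic.Linarith.sub_nonpos_of_le hs0) (Mathlib.Tactic.Linarith.sub_nonpos_of_le h7)])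
    rw [dist_eq_norm, dist_eq_norm] at h6
    refine h6.trans ?_
    calc 2 * M / (s / 8) * ‖SS a (k + 1) - SS a k‖
        ≤ 2 * M / (s / 8) * (2 * (1 / 500 * (2 / 3) ^ k * s)) := by
          gcongr; linarith only [h2, h3]
      _ = 32 / 500 * M * (2 / 3) ^ k := by field_simp; ring
      _ ≤ _ := by gcongr; norm_num
  have hlim : Tendsto J atTop (𝓝 0) := by
    rw [Metric.tendsto_atTop]
    intro ε hε
    obtain ⟨r, hr, hr'⟩ := hs (ε / 2) (by positivity)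
    obtain ⟨N, hN⟩ := exists_pow_lt_of_lt_one (show 0 < 1 - r by linarith)
      (show (1 : ℝ) / 16 < 1 by norm_num)
    refine ⟨N, fun k hk => ?_⟩
    rw [dist_zero_right]
    refine lt_of_le_of_lt (norm_circleAverage_le (C := ε / 2) (rho_pos k).le
      (fun a ha' => ?_)) (by linarith only [hε])
    have ha : ‖a‖ < 1 := ha' ▸ rho_lt_one k
    obtain ⟨s, hs0, hs⟩ := exists_sqrt ha.le
    have h1 : ‖SS a k - (starRingEnd ℂ) (phi a)‖ ≤ s / 4 :=
      (SS_close ha' hs0 hs).trans (by linarith only [hs0])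
    refine hr' _ (norm_ZZ_lt ha hs0 hs h1) ?_
    rw [proj_ZZ ha hs0 hs h1, ha']
    have h2 : ((1 : ℝ) / 16) ^ k ≤ (1 / 16) ^ N :=
      pow_le_pow_of_le_one (by norm_num) (by norm_num) hk
    have h3 : (1 : ℝ) / (2 * 16 ^ k) ≤ (1 / 16) ^ k := by
      rw [one_div_pow]
      exact one_div_le_one_div_of_le (by positivity)
        (by have : (0 : ℝ) < 16 ^ k := by positivity
            linarith only [this])
    unfold rho
    linarith only [hN, h2, h3]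
  have hfin := dist_le_of_le_geometric_of_tendsto₀ (2 / 3) (64 / 500 * M) (by norm_num) hjump hlim
  rw [hJ0, dist_zero_right] at hfin
  refine hfin.trans ?_
  rw [div_le_iff₀ (by norm_num)]
  linarith only [hM0]

/-- The exceptional set is not the exact zero set of a ball-algebra function. -/
theorem not_zero_set : ¬ ∃ f : E2 → ℂ, ContinuousOn f (closedBall 0 1) ∧
    DifferentiableOn ℂ f (ball 0 1) ∧
    {z | z ∈ closedBall (0 : E2) 1 ∧ f z = 0} = closedBall 0 1 \ goodSet psi1 psi2 := by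
  rintro ⟨f, hfc, hfd, hZ⟩
  have hne : ∀ z : E2, ‖z‖ < 1 → f z ≠ 0 := by
    intro z hz h0
    have : z ∈ closedBall (0 : E2) 1 \ goodSet psi1 psi2 := by
      rw [← hZ]; exact ⟨by simpa using hz.le, h0⟩
    exact this.2 (admissible.mem_good hz)
  have hK : ∀ z : E2, ‖z‖ ≤ 1 → z ∉ goodSet psi1 psi2 → f z = 0 := by
    intro z hz hg
    have : z ∈ {z | z ∈ closedBall (0 : E2) 1 ∧ f z = 0} := by
      rw [hZ]; exact ⟨by simpa using hz, hg⟩
    exact this.2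
  obtain ⟨M, hM⟩ := (isCompact_closedBall (0 : E2) 1).exists_bound_of_continuousOn hfc
  have hsc : IsSimplyConnected (ball (0 : E2) 1) := by
    have := (convex_ball (0 : E2) 1).contractibleSpace (nonempty_ball.2 one_pos)
    exact SimplyConnectedSpace.ofContractible _
  obtain ⟨L, hLc, hL⟩ := Complex.exists_continuousOn_eqOn_exp_comp hsc isOpen_ball
    hfd.continuousOn (by
      rintro ⟨z, hz, h0⟩
      exact hne z (by simpa using hz) h0)
  have hLd : DifferentiableOn ℂ L (ball 0 1) := by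
    intro z₀ hz₀
    have hnb := isOpen_ball.mem_nhds hz₀
    have hf0 := hne z₀ (by simpa using hz₀)
    have h1 : DifferentiableAt ℂ (fun z => L z₀ + Complex.log (f z * (f z₀)⁻¹)) z₀ := by
      refine (DifferentiableAt.clog ((hfd.differentiableAt hnb).mul_const _) ?_).const_add _
      rw [mul_inv_cancel₀ hf0]; exact Complex.one_mem_slitPlane
    refine (h1.congr_of_eventuallyEq ?_).differentiableWithinAt
    have h2 : ∀ᶠ z in 𝓝 z₀, dist (L z) (L z₀) < 1 :=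
      Metric.tendsto_nhds.1 (hLc.continuousAt hnb) 1 one_pos
    filter_upwards [hnb, h2] with z hz hz2
    have e1 : Complex.exp (L z) = f z := hL hz
    have e2 : Complex.exp (L z₀) = f z₀ := hL hz₀
    rw [dist_eq_norm] at hz2
    have h3 := abs_le.1 ((Complex.abs_im_le_norm (L z - L z₀)).trans hz2.le)
    rw [← div_eq_mul_inv, ← e1, ← e2, ← Complex.exp_sub, Complex.log_exp (by linarith only [h3, Real.pi_gt_three])
      (by linarith [Real.pi_gt_three])]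
    ring
  have hf0 : 0 < ‖f 0‖ := norm_pos_iff.2 (hne 0 (by simp))
  have hM0 : 0 < M := hf0.trans_le (hM 0 (by simp))
  have key : ∀ n : ℕ, ‖f 0‖ ≤ M * (1 / 2) ^ (n + 1) := by
    intro n
    have hn : ((n + 1 : ℕ) : ℂ) ≠ 0 := by exact_mod_cast Nat.succ_ne_zero n
    set h : E2 → ℂ := fun z => Complex.exp (L z * ((n + 1 : ℕ) : ℂ)⁻¹) with hh
    have hpow : ∀ z : E2, ‖z‖ < 1 → ‖h z‖ ^ (n + 1) = ‖f z‖ := by
      intro z hz
      have e1 : Complex.exp (L z) = f z := hL (show z ∈ ball (0 : E2) 1 by simpa using hz)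
      rw [← norm_pow, hh, ← Complex.exp_nat_mul, ← div_eq_mul_inv, mul_div_cancel₀ _ hn, e1]
    set M' : ℝ := M ^ (((n + 1 : ℕ) : ℝ)⁻¹) with hM'
    have hM'0 : 0 ≤ M' := Real.rpow_nonneg hM0.le _
    have hM'p : M' ^ (n + 1) = M := Real.rpow_inv_natCast_pow hM0.le (Nat.succ_ne_zero n)
    have h1 := norm_zero_le_half (h := h) (M := M') ((hLd.mul_const _).cexp)
      (fun z hz => by
        refine (pow_le_pow_iff_left₀ (norm_nonneg _) hM'0 (Nat.succ_ne_zero n)).1 ?_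
        rw [hpow z hz, hM'p]
        exact hM z (by simpa using hz.le))
      (fun η hη => by
        obtain ⟨r, hr, hr'⟩ := admissible.small_near_boundary hfc hK
          (show 0 < η ^ (n + 1) by positivity)
        refine ⟨r, hr, fun z hz hrz => ?_⟩
        refine (pow_le_pow_iff_left₀ (norm_nonneg _) hη.le (Nat.succ_ne_zero n)).1 ?_
        rw [hpow z hz]
        exact (hr' z (admissible.mem_good hz) hrz).le)
    rw [← hpow 0 (by simp), ← hM'p, ← mul_pow]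
    gcongr
    linarith only [h1]
  obtain ⟨n, hn⟩ := exists_pow_lt_of_lt_one (show 0 < ‖f 0‖ / M by positivity)
    (show (1 : ℝ) / 2 < 1 by norm_num)
  have h1 := key n
  rw [lt_div_iff₀ hM0] at hn
  rw [pow_succ] at h1
  have : (0 : ℝ) < (1 / 2) ^ n * M := by positivity
  linarith only [hf0, hn, h1]

end Pool.Agent.Work.MP_0c4bbf_an
end
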