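import Pool.Agent.Work.MP_0c4bbf_an.Sections

/-!
The counterexample in every dimension `n ≥ 2`, with `n` functions cutting it out.
-/

set_option autoImplicit false

open Metric Set

namespace Pool.Agent.Work.MP_0c4bbf_an

/-- Two ball-algebra functions whose common zero set is the exceptional set. -/
theorem exists_two : ∃ f g : E2 → ℂ,
    (ContinuousOn f (closedBall 0 1) ∧ DifferentiableOn ℂ f (ball 0 1)) ∧
    (ContinuousOn g (closedBall 0 1) ∧ DifferentiableOn ℂ g (ball 0 1)) ∧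
    ∀ z, (f z = 0 ∧ g z = 0) ↔ z ∉ goodSet psi1 psi2 := by
  obtain ⟨QA, PA, hQA, hPA, tQA, tPA, sA⟩ := exists_pair (x0 := fun _ => 1) (x1 := fun _ => 1)
    (y0 := fun _ => 0) (by fun_prop) (by fun_prop) (by fun_prop) (by simp) (by simp) (by simp)
  obtain ⟨QB, PB, hQB, hPB, tQB, tPB, sB⟩ := exists_pair (x0 := fun _ => 0) (x1 := fun a => a)
    (y0 := fun _ => ee 0) (by fun_prop) (by fun_prop) (by fun_prop) (by simp)
    (fun a ha => ha) (by simp)
  refine ⟨gfun QA PA, gfun QB PB, ⟨gfun_continuousOn hQA hPA sA, gfun_differentiableOn hQA hPA⟩,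
    ⟨gfun_continuousOn hQB hPB sB, gfun_differentiableOn hQB hPB⟩, fun z =>
    ⟨fun h hz => ?_, fun hz => ⟨gfun_of_not_mem hz, gfun_of_not_mem hz⟩⟩⟩
  obtain ⟨hA, hB⟩ := h
  have ha := (proj_spec hz).1
  have hdet : QA (proj psi1 psi2 z) * PB (proj psi1 psi2 z) -
      QB (proj psi1 psi2 z) * PA (proj psi1 psi2 z) = ee 0 := by
    have h1 := ((tQA _ ha).mul (tPB _ ha)).sub ((tQB _ ha).mul (tPA _ ha))
    simp only [det_identity] at h1
    exact tendsto_nhds_unique h1 tendsto_const_nhds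
  rw [gfun_of_mem hz] at hA hB
  have h0 : (ee 0 : ℂ) = 0 := by
    rw [← hdet]
    linear_combination QB (proj psi1 psi2 z) * hA - QA (proj psi1 psi2 z) * hB
  exact (ee_pos 0).ne' (by exact_mod_cast h0)

variable (m : ℕ)

/-- The inclusion of the first two coordinates. -/
noncomputable def inc : E2 →L[ℂ] EuclideanSpace ℂ (Fin (m + 2)) :=
  (EuclideanSpace.proj (0 : Fin 2) : E2 →L[ℂ] ℂ).smulRight (EuclideanSpace.single 0 (1 : ℂ)) +
    (EuclideanSpace.proj (1 : Fin 2) : E2 →L[ℂ] ℂ).smulRight (EuclideanSpace.single 1 (1 : ℂ))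

/-- The projection onto the first two coordinates. -/
noncomputable def prj : EuclideanSpace ℂ (Fin (m + 2)) →L[ℂ] E2 :=
  (EuclideanSpace.proj (0 : Fin (m + 2)) : _ →L[ℂ] ℂ).smulRight (EuclideanSpace.single 0 (1 : ℂ)) +
    (EuclideanSpace.proj (1 : Fin (m + 2)) : _ →L[ℂ] ℂ).smulRight (EuclideanSpace.single 1 (1 : ℂ))

variable {m}

lemma inc_zero (z : E2) : inc m z 0 = z 0 := by simp [inc]

lemma inc_one (z : E2) : inc m z 1 = z 1 := by simp [inc]

lemma inc_succ (z : E2) (j : Fin m) : inc m z j.succ.succ = 0 := by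
  have h1 : j.succ.succ ≠ 1 := fun h => Fin.succ_ne_zero j (Fin.succ_injective _ h)
  simp [inc, Fin.succ_ne_zero, h1]

lemma prj_zero (w : EuclideanSpace ℂ (Fin (m + 2))) : prj m w 0 = w 0 := by simp [prj]

lemma prj_one (w : EuclideanSpace ℂ (Fin (m + 2))) : prj m w 1 = w 1 := by simp [prj]

lemma normSq_split (w : EuclideanSpace ℂ (Fin (m + 2))) :
    ‖w‖ ^ 2 = ‖prj m w‖ ^ 2 + ∑ j : Fin m, ‖w j.succ.succ‖ ^ 2 := by
  rw [EuclideanSpace.norm_sq_eq, Fin.sum_univ_succ, Fin.sum_univ_succ, normSq_E2, prj_zero,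
    prj_one]
  exact (add_assoc _ _ _).symm

lemma prj_inc (z : E2) : prj m (inc m z) = z := by
  ext i
  fin_cases i
  · exact (prj_zero _).trans (inc_zero z)
  · exact (prj_one _).trans (inc_one z)

lemma norm_inc (z : E2) : ‖inc m z‖ = ‖z‖ := by
  have := normSq_split (inc m z)
  simp only [inc_succ, norm_zero, prj_inc] at this
  exact (pow_left_inj₀ (norm_nonneg _) (norm_nonneg _) two_ne_zero).1 (by simpa using this)

lemma norm_prj_le (w : EuclideanSpace ℂ (Fin (m + 2))) : ‖prj m w‖ ≤ ‖w‖ := by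
  refine (pow_le_pow_iff_left₀ (norm_nonneg _) (norm_nonneg _) two_ne_zero).1 ?_
  rw [normSq_split w]
  exact le_add_of_nonneg_right (Finset.sum_nonneg fun _ _ => by positivity)

lemma inc_prj {w : EuclideanSpace ℂ (Fin (m + 2))} (h : ∀ j : Fin m, w j.succ.succ = 0) :
    inc m (prj m w) = w := by
  ext i
  refine Fin.cases ?_ (fun i => Fin.cases ?_ (fun j => ?_) i) i
  · exact (inc_zero _).trans (prj_zero w)
  · exact (inc_one _).trans (prj_one w)
  · rw [inc_succ, h]

theorem all_dim (n : ℕ) (hn : 2 ≤ n) : ∃ K : Set (EuclideanSpace ℂ (Fin n)),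
    IsCompact K ∧ K ⊆ sphere 0 1 ∧
    (¬ ∃ f : EuclideanSpace ℂ (Fin n) → ℂ,
      (ContinuousOn f (closedBall 0 1) ∧ DifferentiableOn ℂ f (ball 0 1)) ∧
      {z ∈ closedBall 0 1 | f z = 0} = K) ∧
    ∃ g : Fin n → EuclideanSpace ℂ (Fin n) → ℂ,
      (∀ j, ContinuousOn (g j) (closedBall 0 1) ∧ DifferentiableOn ℂ (g j) (ball 0 1)) ∧
      {z ∈ closedBall 0 1 | ∀ j, g j z = 0} = K := by
  obtain ⟨m, rfl⟩ : ∃ m, n = m + 2 := ⟨n - 2, by omega⟩
  have hi1 : MapsTo (inc m) (closedBall 0 1) (closedBall 0 1) := fun z hz => by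
    simpa [norm_inc] using hz
  have hi2 : MapsTo (inc m) (ball 0 1) (ball 0 1) := fun z hz => by simpa [norm_inc] using hz
  have hp1 : MapsTo (prj m) (closedBall 0 1) (closedBall 0 1) := fun z hz =>
    mem_closedBall_zero_iff.2 ((norm_prj_le z).trans (mem_closedBall_zero_iff.1 hz))
  have hp2 : MapsTo (prj m) (ball 0 1) (ball 0 1) := fun z hz =>
    mem_ball_zero_iff.2 ((norm_prj_le z).trans_lt (mem_ball_zero_iff.1 hz))
  refine ⟨inc m '' (closedBall 0 1 \ goodSet psi1 psi2),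
    admissible.isCompact_bad.image (inc m).continuous, ?_, ?_, ?_⟩
  · rintro _ ⟨z, hz, rfl⟩
    have h1 : ‖z‖ ≤ 1 := by simpa using hz.1
    rcases h1.lt_or_eq with h2 | h2
    · exact absurd (admissible.mem_good h2) hz.2
    · simpa [norm_inc] using h2
  · rintro ⟨f, ⟨hc, hd⟩, hZ⟩
    refine not_zero_set ⟨f ∘ inc m, hc.comp (inc m).continuous.continuousOn hi1,
      hd.comp (inc m).differentiable.differentiableOn hi2, ?_⟩
    ext z
    constructor
    · rintro ⟨h1, h2⟩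
      have h3 : inc m z ∈ inc m '' (closedBall 0 1 \ goodSet psi1 psi2) := by
        rw [← hZ]; exact ⟨hi1 h1, h2⟩
      obtain ⟨w, hw, e⟩ := h3
      have : w = z := by rw [← prj_inc (m := m) w, e, prj_inc]
      exact this ▸ hw
    · intro hz
      have h3 : inc m z ∈ {z ∈ closedBall (0 : EuclideanSpace ℂ (Fin (m + 2))) 1 | f z = 0} := by
        rw [hZ]; exact mem_image_of_mem _ hz
      exact ⟨hz.1, h3.2⟩
  · obtain ⟨f, g, hf, hg, h⟩ := exists_two
    refine ⟨Fin.cons (f ∘ prj m) (Fin.cons (g ∘ prj m) fun j w => w j.succ.succ), fun j => ?_, ?_⟩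
    · refine Fin.cases ?_ (fun i => Fin.cases ?_ (fun j => ?_) i) j
      · exact ⟨hf.1.comp (prj m).continuous.continuousOn hp1,
          hf.2.comp (prj m).differentiable.differentiableOn hp2⟩
      · exact ⟨hg.1.comp (prj m).continuous.continuousOn hp1,
          hg.2.comp (prj m).differentiable.differentiableOn hp2⟩
      · exact ⟨(EuclideanSpace.proj j.succ.succ : _ →L[ℂ] ℂ).continuous.continuousOn,
          (EuclideanSpace.proj j.succ.succ : _ →L[ℂ] ℂ).differentiable.differentiableOn⟩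
    · ext w
      simp only [mem_ofPred_eq, Fin.forall_fin_succ, Fin.cons_zero, Fin.cons_succ,
        Function.comp_apply]
      constructor
      · rintro ⟨h1, h2, h3, h4⟩
        exact ⟨prj m w, ⟨hp1 h1, (h _).1 ⟨h2, h3⟩⟩, inc_prj h4⟩
      · rintro ⟨z, hz, rfl⟩
        rw [prj_inc]
        exact ⟨hi1 hz.1, ((h z).2 hz.2).1, ((h z).2 hz.2).2, inc_succ z⟩

end Pool.Agent.Work.MP_0c4bbf_an
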